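import Mathlib

namespace Pool.H40.Area

lemma gamma_nonpos (e t : ℝ) (he0 : 0 ≤ e) (he1 : e ≤ 1/3) (ht0 : 0 ≤ t) (ht1 : t ≤ 1) :
    9/16 * (t*t/3 + 4/9*(1-e)*t + 2/9*(2-e)*(1-t))^2 +
    (t/45 + (t/3)*(-(3/2) + e/4 + (5/3-4/3*e)*(1-t)) + (1-t)^2/27 - (1-t)*(1+e-e*e)/27
      + t*(1-t)/15 + ((1-e)/27)*(-12*t*(1-t) - 3*(1-t)^2)
      + t*(1-t)*(-(1/6) - 13/12*e + 2/9*(1-t)) + 1/25*t*(4/3-t)) ≤ 0 := by
  have h1 : 0 ≤ 1 - t := by linarith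
  have h2 : 0 ≤ 1/3 - e := by linarith
  nlinarith [mul_nonneg ht0 ht0, mul_nonneg (mul_nonneg ht0 ht0) h1,
    mul_nonneg (mul_nonneg (mul_nonneg ht0 ht0) ht0) h1,
    mul_nonneg (mul_nonneg he0 ht0) h1, mul_nonneg he0 h2, mul_nonneg (mul_nonneg he0 ht0) h2,
    mul_nonneg (mul_nonneg (mul_nonneg he0 ht0) ht0) h2,
    mul_nonneg he0 (mul_nonneg (mul_nonneg ht0 ht0) ht0), mul_nonneg he0 ht0,
    mul_nonneg (mul_nonneg (mul_nonneg he0 ht0) ht0) h1]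

lemma neg_aux (e B x : ℝ) (h3 : 1/3 < e) (he1 : e ≤ 1) (hBe : B ≤ e) (hx : 3 * x^2 ≤ B) :
    -e/6-13/12*e^2+2/9*B-(1-e)*x/3 + e/25 ≤ 0 := by
  have h1 : -x ≤ 3/2*x^2 + 1/6 := by nlinarith [sq_nonneg (x + 1/3)]
  have h2 : -x ≤ e/2 + 1/6 := by linarith
  have h4 : (1-e)*(-x) ≤ (1-e)*(e/2+1/6) := mul_le_mul_of_nonneg_left h2 (by linarith)
  nlinarith

lemma zero_aux (s x y p q F e k2 : ℝ) (he : e = 1 - s^2)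
    (hF : F = s^2 + ((s^2/2 + x)^2 + y^2) + ((2*s*x + p)^2 + (2*s*y + q)^2))
    (hk2 : k2 = 1 - (s^2 + 6*(x^2+y^2) + 9*(p^2+q^2)) +
      9*((s*p - x^2 + y^2)^2 + (s*q - 2*x*y)^2))
    (h0 : 3*(x^2+y^2) = 0) (he0 : 0 < e) (hK2 : 0 ≤ k2) (hcon : 49/36 - e/25 < F) : False := by
  have hx0 : x = 0 := by
    have : x^2 ≤ 0 := by nlinarith [sq_nonneg y]
    exact pow_eq_zero_iff (two_ne_zero) |>.1 (le_antisymm this (sq_nonneg x))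
  have hy0 : y = 0 := by
    have : y^2 ≤ 0 := by nlinarith [sq_nonneg x]
    exact pow_eq_zero_iff (two_ne_zero) |>.1 (le_antisymm this (sq_nonneg y))
  subst hx0 hy0
  have h1 : k2 = e * (1 - 9*(p^2+q^2)) := by rw [hk2, he]; ring
  have h2 : 0 ≤ 1 - 9*(p^2+q^2) := by
    rw [h1] at hK2
    exact nonneg_of_mul_nonneg_right hK2 he0
  have h3 : F = (1-e) + (1-e)^2/4 + (p^2+q^2) := by rw [hF, he]; ring
  have h4 : e ≤ 1 := by rw [he]; nlinarith [sq_nonneg s]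
  nlinarith

lemma final_real (s x y p q : ℝ)
    (K1 : s^2 + 3*(x^2+y^2) + 5*((p + s*x - s^3/3)^2 + (q + s*y)^2) ≤ 1)
    (K2 : 0 ≤ 1 - (s^2 + 6*(x^2+y^2) + 9*(p^2+q^2)) + 9*((s*p - x^2 + y^2)^2 + (s*q - 2*x*y)^2))
    (hD : 0 < 1 - s^2 - 3*(x^2+y^2)) :
    s^2 + ((s^2/2 + x)^2 + y^2) + ((2*s*x + p)^2 + (2*s*y + q)^2) ≤ 49/36 - (1-s^2)/25 := by
  obtain ⟨e, he⟩ : ∃ e, e = 1 - s^2 := ⟨_, rfl⟩
  obtain ⟨B, hB⟩ : ∃ B, B = 3*(x^2+y^2) := ⟨_, rfl⟩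
  obtain ⟨D, hDd⟩ : ∃ D, D = e - B := ⟨_, rfl⟩
  have hD' : 0 < D := by rw [hDd, he, hB]; linarith
  have hB0 : 0 ≤ B := by rw [hB]; positivity
  have he0 : 0 < e := by linarith
  have he1 : e ≤ 1 := by rw [he]; nlinarith [sq_nonneg s]
  obtain ⟨F, hF⟩ : ∃ F, F = s^2 + ((s^2/2 + x)^2 + y^2) + ((2*s*x + p)^2 + (2*s*y + q)^2) :=
    ⟨_, rfl⟩
  obtain ⟨k1, hk1⟩ : ∃ k1, k1 = e - B - 5*((p + s*x - s^3/3)^2 + (q + s*y)^2) := ⟨_, rfl⟩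
  obtain ⟨k2, hk2⟩ : ∃ k2, k2 = 1 - (s^2 + 6*(x^2+y^2) + 9*(p^2+q^2)) +
    9*((s*p - x^2 + y^2)^2 + (s*q - 2*x*y)^2) := ⟨_, rfl⟩
  have hK1 : 0 ≤ k1 := by rw [hk1, he, hB]; linarith
  have hK2 : 0 ≤ k2 := by rw [hk2]; exact K2
  rw [← hF, ← he]
  by_contra hcon
  push Not at hcon
  have hpos : 0 < D * (F - 49/36 + e/25) := mul_pos hD' (by linarith)
  rcases le_or_gt e (1/3) with h3 | h3
  · -- use m = e/3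
    obtain ⟨t, ht⟩ : ∃ t, t = D / e := ⟨_, rfl⟩
    have hDt : D = e * t := by rw [ht]; field_simp
    have ht0 : 0 ≤ t := by rw [ht]; positivity
    have ht1 : t ≤ 1 := by rw [ht, div_le_one he0]; linarith
    have hg := gamma_nonpos e t he0.le h3 ht0 ht1
    have hBt : B = e * (1 - t) := by linarith
    have id1 : (B + e/3) * (D * (F - 49/36 + e/25) + k2/9 + (e/15) * k1) =
        ((e/3)^2/5*D + (e/3)*((D*(-(3/2)*e+e^2/4+(5/3-4/3*e)*B+(1-e)*x)-B*(1-B)/9)+B*D/5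
          +((1-e)/9)*(12*D*(1-e)*x-12*D*B-12*(1-e)*x^2+2*(1-e)*B+6*B*x-B*(1-e)^2+6*B*(1-e)*x-3*B^2))
          + B*D*(-e/6-13/12*e^2+2/9*B-(1-e)*x/3) + (B+e/3)*(1/25)*e*D)
        - (((B+e/3)*3*p-3*s*(2*D*x-(x^2-y^2))-(e/3)*s*(s^2-3*x))^2
          + ((B+e/3)*3*q-3*s*(2*D*y-2*x*y)-(e/3)*s*(-3*y))^2)/9 := by
      rw [hF, hk1, hk2, hDd, hB, he]; ring
    have id2 : ((e/3)^2/5*D + (e/3)*((D*(-(3/2)*e+e^2/4+(5/3-4/3*e)*B+(1-e)*x)-B*(1-B)/9)+B*D/5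
          +((1-e)/9)*(12*D*(1-e)*x-12*D*B-12*(1-e)*x^2+2*(1-e)*B+6*B*x-B*(1-e)^2+6*B*(1-e)*x-3*B^2))
          + B*D*(-e/6-13/12*e^2+2/9*B-(1-e)*x/3) + (B+e/3)*(1/25)*e*D) =
        -(4/9)*e*((1-e)*x-9/8*e*(t*t/3 + 4/9*(1-e)*t + 2/9*(2-e)*(1-t)))^2 + e^3 *
        (9/16 * (t*t/3 + 4/9*(1-e)*t + 2/9*(2-e)*(1-t))^2 +
    (t/45 + (t/3)*(-(3/2) + e/4 + (5/3-4/3*e)*(1-t)) + (1-t)^2/27 - (1-t)*(1+e-e*e)/27
      + t*(1-t)/15 + ((1-e)/27)*(-12*t*(1-t) - 3*(1-t)^2)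
      + t*(1-t)*(-(1/6) - 13/12*e + 2/9*(1-t)) + 1/25*t*(4/3-t))) := by
      rw [hDt, hBt]; ring
    have h5 : 0 < (B + e/3) * (D * (F - 49/36 + e/25) + k2/9 + (e/15) * k1) := by
      apply mul_pos (by linarith)
      have : 0 ≤ (e/15) * k1 := by positivity
      linarith
    have h6 : e^3 * (9/16 * (t*t/3 + 4/9*(1-e)*t + 2/9*(2-e)*(1-t))^2 +
    (t/45 + (t/3)*(-(3/2) + e/4 + (5/3-4/3*e)*(1-t)) + (1-t)^2/27 - (1-t)*(1+e-e*e)/27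
      + t*(1-t)/15 + ((1-e)/27)*(-12*t*(1-t) - 3*(1-t)^2)
      + t*(1-t)*(-(1/6) - 13/12*e + 2/9*(1-t)) + 1/25*t*(4/3-t))) ≤ 0 :=
      mul_nonpos_of_nonneg_of_nonpos (by positivity) hg
    have h7 : 0 ≤ (4/9)*e*((1-e)*x-9/8*e*(t*t/3 + 4/9*(1-e)*t + 2/9*(2-e)*(1-t)))^2 := by positivity
    have h8 : 0 ≤ (((B+e/3)*3*p-3*s*(2*D*x-(x^2-y^2))-(e/3)*s*(s^2-3*x))^2
          + ((B+e/3)*3*q-3*s*(2*D*y-2*x*y)-(e/3)*s*(-3*y))^2)/9 := by positivity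
    linarith
  · -- m = 0
    have id1 : B * (D * (F - 49/36 + e/25) + k2/9) =
        B*D*(-e/6-13/12*e^2+2/9*B-(1-e)*x/3 + e/25)
        - ((B*3*p-3*s*(2*D*x-(x^2-y^2)))^2
          + (B*3*q-3*s*(2*D*y-2*x*y))^2)/9 := by
      rw [hF, hk2, hDd, hB, he]; ring
    have hx : 3 * x^2 ≤ B := by rw [hB]; nlinarith [sq_nonneg y]
    have hBe : B ≤ e := by linarith
    have hneg := neg_aux e B x h3 he1 hBe hx
    rcases hB0.eq_or_lt with hB00 | hB00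
    · exact zero_aux s x y p q F e k2 he hF hk2 (hB00.symm ▸ hB).symm he0 hK2 hcon
    · have h5 : 0 < B * (D * (F - 49/36 + e/25) + k2/9) := by
        apply mul_pos hB00
        linarith
      have h6 : B*D*(-e/6-13/12*e^2+2/9*B-(1-e)*x/3 + e/25) ≤ 0 :=
        mul_nonpos_of_nonneg_of_nonpos (by positivity) hneg
      have h8 : 0 ≤ ((B*3*p-3*s*(2*D*x-(x^2-y^2)))^2
          + (B*3*q-3*s*(2*D*y-2*x*y))^2)/9 := by positivity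
      linarith

end Pool.H40.Area
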