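import Pool.Agent.H40.Area.Alg

open Complex

namespace Pool.H40.Area

lemma K2_of (s x y p q : ℝ) (hD : 0 < 1 - s^2 - 3*(x^2+y^2))
    (h2 : ∀ α β : ℂ, ‖(s:ℂ) * α + 3 * (⟨x, y⟩ : ℂ) * β‖^2 + 3 * ‖(⟨x, y⟩ : ℂ) * α + 3 * (⟨p, q⟩ : ℂ) * β‖^2
      ≤ ‖α‖^2 + 3*‖β‖^2) :
    0 ≤ 1 - (s^2 + 6*(x^2+y^2) + 9*(p^2+q^2)) + 9*((s*p - x^2 + y^2)^2 + (s*q - 2*x*y)^2) := by
  have h := h2 (⟨3*s*x + 9*(x*p+y*q), 3*s*y + 9*(x*q-y*p)⟩ : ℂ) (⟨1 - s^2 - 3*(x^2+y^2), 0⟩ : ℂ)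
  simp only [Complex.sq_norm, Complex.normSq_apply, add_re, add_im, mul_re, mul_im, ofReal_re,
    ofReal_im, Complex.re_ofNat, Complex.im_ofNat] at h
  have key : 0 ≤ (1 - s^2 - 3*(x^2+y^2)) * (1 - (s^2 + 6*(x^2+y^2) + 9*(p^2+q^2)) + 9*((s*p - x^2 + y^2)^2 + (s*q - 2*x*y)^2)) := by
    linarith
  exact nonneg_of_mul_nonneg_right key hD

lemma final_real_complex (s : ℝ) (u c : ℂ) (hD : 0 < 1 - s^2 - 3*‖u‖^2)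
    (h1 : s^2 + 3*‖u‖^2 + 5*‖c + s*u - (s:ℂ)^3/3‖^2 ≤ 1)
    (h2 : ∀ α β : ℂ, ‖(s:ℂ) * α + 3 * u * β‖^2 + 3 * ‖u * α + 3 * c * β‖^2
      ≤ ‖α‖^2 + 3*‖β‖^2) :
    s^2 + ‖(s:ℂ)^2/2 + u‖^2 + ‖2*s*u + c‖^2 ≤ 49/36 - (1-s^2)/25 := by
  obtain ⟨x, y⟩ := u
  obtain ⟨p, q⟩ := c
  have e1 : ‖(⟨x, y⟩ : ℂ)‖^2 = x^2 + y^2 := by
    rw [Complex.sq_norm, Complex.normSq_apply]; ring
  have e2 : ‖(⟨p, q⟩ : ℂ) + s*(⟨x, y⟩ : ℂ) - (s:ℂ)^3/3‖^2 = (p + s*x - s^3/3)^2 + (q + s*y)^2 := by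
    have : (⟨p, q⟩ : ℂ) + s*(⟨x, y⟩ : ℂ) - (s:ℂ)^3/3 = ⟨p + s*x - s^3/3, q + s*y⟩ := by
      apply Complex.ext
      · simp [← Complex.ofReal_pow, ← Complex.ofReal_ofNat, ← Complex.ofReal_div]
      · simp [← Complex.ofReal_pow, ← Complex.ofReal_ofNat, ← Complex.ofReal_div]
    rw [this, Complex.sq_norm, Complex.normSq_apply]; ring
  have e3 : ‖(s:ℂ)^2/2 + (⟨x, y⟩ : ℂ)‖^2 = (s^2/2+x)^2 + y^2 := by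
    have : (s:ℂ)^2/2 + (⟨x, y⟩ : ℂ) = ⟨s^2/2 + x, y⟩ := by
      apply Complex.ext
      · simp [← Complex.ofReal_pow, ← Complex.ofReal_ofNat, ← Complex.ofReal_div]
      · simp [← Complex.ofReal_pow, ← Complex.ofReal_ofNat, ← Complex.ofReal_div]
    rw [this, Complex.sq_norm, Complex.normSq_apply]; ring
  have e4 : ‖2*s*(⟨x, y⟩ : ℂ) + (⟨p, q⟩ : ℂ)‖^2 = (2*s*x+p)^2 + (2*s*y+q)^2 := by
    have : 2*s*(⟨x, y⟩ : ℂ) + (⟨p, q⟩ : ℂ) = ⟨2*s*x + p, 2*s*y + q⟩ := by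
      apply Complex.ext <;> simp
    rw [this, Complex.sq_norm, Complex.normSq_apply]; ring
  rw [e1] at hD h1
  rw [e2] at h1
  rw [e3, e4]
  exact final_real s x y p q h1 (K2_of s x y p q hD h2) hD

lemma final_complex_strict (a u c : ℂ) (hD : 0 < 1 - ‖a‖^2 - 3*‖u‖^2)
    (h1 : ‖a‖^2 + 3*‖u‖^2 + 5*‖c + a*u - a^3/3‖^2 ≤ 1)
    (h2 : ∀ α β : ℂ, ‖a * α + 3 * u * β‖^2 + 3 * ‖u * α + 3 * c * β‖^2
      ≤ ‖α‖^2 + 3*‖β‖^2) :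
    ‖a‖^2 + ‖a^2/2 + u‖^2 + ‖2*a*u + c‖^2 ≤ 49/36 - (1-‖a‖^2)/25 := by
  obtain ⟨w, hw, hwa⟩ : ∃ w : ℂ, ‖w‖ = 1 ∧ w * a = (‖a‖ : ℂ) := by
    by_cases ha : a = 0
    · exact ⟨1, by simp, by simp [ha]⟩
    · refine ⟨(‖a‖ : ℂ) / a, ?_, ?_⟩
      · rw [norm_div, Complex.norm_real, norm_norm, div_self (norm_ne_zero_iff.2 ha)]
      · field_simp
  have hw0 : w ≠ 0 := by
    rintro rfl
    simp at hw
  have n1 : ∀ z : ℂ, ‖w * z‖ = ‖z‖ := fun z => by rw [norm_mul, hw, one_mul]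
  have n2 : ∀ z : ℂ, ‖w^2 * z‖ = ‖z‖ := fun z => by rw [norm_mul, norm_pow, hw]; simp
  have n3 : ∀ z : ℂ, ‖w^3 * z‖ = ‖z‖ := fun z => by rw [norm_mul, norm_pow, hw]; simp
  have key := final_real_complex ‖a‖ (w^2*u) (w^3*c) (by rw [n2]; exact hD) (by
      rw [n2, ← hwa]
      have : w^3*c + w*a*(w^2*u) - (w*a)^3/3 = w^3*(c + a*u - a^3/3) := by ring
      rw [this, n3]; exact h1) (by
      intro α β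
      have := h2 α (w*β)
      rw [n1] at this
      rw [← hwa]
      have e1 : w*a*α + 3*(w^2*u)*β = w*(a*α + 3*u*(w*β)) := by ring
      have e2 : w^2*u*α + 3*(w^3*c)*β = w^2*(u*α + 3*c*(w*β)) := by ring
      rw [e1, e2, n1, n2]
      exact this)
  rw [← hwa] at key
  have e3 : (w*a)^2/2 + w^2*u = w^2*(a^2/2+u) := by ring
  have e4 : 2*(w*a)*(w^2*u) + w^3*c = w^3*(2*a*u + c) := by ring
  rw [e3, e4, n2, n3] at key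
  exact key

lemma final_complex (a u c : ℂ)
    (h1 : ‖a‖^2 + 3*‖u‖^2 + 5*‖c + a*u - a^3/3‖^2 ≤ 1)
    (h2 : ∀ α β : ℂ, ‖a * α + 3 * u * β‖^2 + 3 * ‖u * α + 3 * c * β‖^2
      ≤ ‖α‖^2 + 3*‖β‖^2) :
    ‖a‖^2 + ‖a^2/2 + u‖^2 + ‖2*a*u + c‖^2 ≤ 49/36 - (1-‖a‖^2)/25 := by
  have hscale : ∀ t : ℝ, 0 < t → t < 1 →
      ‖(t:ℂ)^2*a‖^2 + ‖((t:ℂ)^2*a)^2/2 + (t:ℂ)^4*u‖^2 + ‖2*((t:ℂ)^2*a)*((t:ℂ)^4*u) + (t:ℂ)^6*c‖^2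
        ≤ 49/36 - (1-‖(t:ℂ)^2*a‖^2)/25 := by
    intro t ht0 ht1
    have hn : ∀ (k : ℕ) (z : ℂ), ‖(t:ℂ)^k*z‖^2 = (t^k)^2*‖z‖^2 := by
      intro k z
      rw [norm_mul, norm_pow, Complex.norm_real, Real.norm_eq_abs, abs_of_pos ht0]; ring
    have ht2 : t^4 ≤ 1 := pow_le_one₀ ht0.le ht1.le
    have ht4 : t^4 < 1 := pow_lt_one₀ ht0.le ht1 (by norm_num)
    have ht8 : t^8 ≤ t^4 := pow_le_pow_of_le_one ht0.le ht1.le (by norm_num)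
    have ht12 : t^12 ≤ t^4 := pow_le_pow_of_le_one ht0.le ht1.le (by norm_num)
    have hu := sq_nonneg ‖u‖
    have ha := sq_nonneg ‖a‖
    have hc := sq_nonneg ‖c + a*u - a^3/3‖
    apply final_complex_strict
    · rw [hn, hn]
      have : (t^4)^2 * ‖u‖^2 ≤ t^4 * ‖u‖^2 := by
        have : (t^4)^2 = t^8 := by ring
        rw [this]; exact mul_le_mul_of_nonneg_right ht8 hu
      have h3 : (t^2)^2 = t^4 := by ring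
      rw [h3]
      nlinarith [pow_pos ht0 4]
    · have e : (t:ℂ)^6*c + (t:ℂ)^2*a*((t:ℂ)^4*u) - ((t:ℂ)^2*a)^3/3 = (t:ℂ)^6*(c + a*u - a^3/3) := by ring
      rw [e, hn, hn, hn]
      have h3 : (t^2)^2 = t^4 := by ring
      have h4 : (t^4)^2 = t^8 := by ring
      have h5 : (t^6)^2 = t^12 := by ring
      rw [h3, h4, h5]
      have a1 := mul_le_mul_of_nonneg_right ht8 hu
      have a2 := mul_le_mul_of_nonneg_right ht12 hc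
      nlinarith [pow_pos ht0 4]
    · intro α β
      have h := h2 ((t:ℂ)*α) ((t:ℂ)^3*β)
      have e1 : (t:ℂ)^2*a*α + 3*((t:ℂ)^4*u)*β = (t:ℂ)^1*(a*((t:ℂ)*α) + 3*u*((t:ℂ)^3*β)) := by ring
      have e2 : (t:ℂ)^4*u*α + 3*((t:ℂ)^6*c)*β = (t:ℂ)^3*(u*((t:ℂ)*α) + 3*c*((t:ℂ)^3*β)) := by ring
      rw [e1, e2, hn, hn]
      have e3 : ‖(t:ℂ)*α‖^2 = t^2*‖α‖^2 := by
        rw [norm_mul, Complex.norm_real, Real.norm_eq_abs, abs_of_pos ht0]; ring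
      rw [e3, hn] at h
      have hb1 := sq_nonneg ‖a*((t:ℂ)*α) + 3*u*((t:ℂ)^3*β)‖
      have hb2 := sq_nonneg ‖u*((t:ℂ)*α) + 3*c*((t:ℂ)^3*β)‖
      have t1 : t^2 ≤ 1 := pow_le_one₀ ht0.le ht1.le
      have t3 : (t^3)^2 ≤ t^2 := by
        have : (t^3)^2 = t^6 := by ring
        rw [this]; exact pow_le_pow_of_le_one ht0.le ht1.le (by norm_num)
      have t6 : (t^3)^2 ≤ 1 := t3.trans t1
      have hA := sq_nonneg ‖α‖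
      have hB := sq_nonneg ‖β‖
      have m1 := mul_le_mul_of_nonneg_right t3 hb2
      have m2 : t^2 * (‖a*((t:ℂ)*α) + 3*u*((t:ℂ)^3*β)‖^2 + 3*‖u*((t:ℂ)*α) + 3*c*((t:ℂ)^3*β)‖^2)
          ≤ 1 * (t^2*‖α‖^2 + 3*((t^3)^2*‖β‖^2)) := by
        apply mul_le_mul t1 h (by positivity) (by norm_num)
      have m3 := mul_le_mul_of_nonneg_right t1 hA
      have m4 := mul_le_mul_of_nonneg_right t6 hB
      rw [pow_one]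
      nlinarith
  -- limit t → 1
  have hcont : Filter.Tendsto (fun t : ℝ => ‖(t:ℂ)^2*a‖^2 + ‖((t:ℂ)^2*a)^2/2 + (t:ℂ)^4*u‖^2
      + ‖2*((t:ℂ)^2*a)*((t:ℂ)^4*u) + (t:ℂ)^6*c‖^2 + (1-‖(t:ℂ)^2*a‖^2)/25) (nhdsWithin 1 (Set.Iio 1))
      (nhds (‖a‖^2 + ‖a^2/2 + u‖^2 + ‖2*a*u + c‖^2 + (1-‖a‖^2)/25)) := by
    have hc : Continuous (fun t : ℝ => ‖(t:ℂ)^2*a‖^2 + ‖((t:ℂ)^2*a)^2/2 + (t:ℂ)^4*u‖^2
      + ‖2*((t:ℂ)^2*a)*((t:ℂ)^4*u) + (t:ℂ)^6*c‖^2 + (1-‖(t:ℂ)^2*a‖^2)/25) := by fun_prop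
    have := (hc.tendsto 1).mono_left (nhdsWithin_le_nhds (s := Set.Iio 1))
    simpa using this
  have hle : ‖a‖^2 + ‖a^2/2 + u‖^2 + ‖2*a*u + c‖^2 + (1-‖a‖^2)/25 ≤ 49/36 := by
    apply le_of_tendsto hcont
    have : Set.Ioo (0:ℝ) 1 ∈ nhdsWithin (1:ℝ) (Set.Iio 1) := Ioo_mem_nhdsLT (by norm_num)
    filter_upwards [this] with t ht
    have := hscale t ht.1 ht.2
    linarith
  linarith

end Pool.H40.Area
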