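import Pool.Agent.H40.Area.Green

/-!
Area inequality for `Q ∘ h`, `h` injective holomorphic on the unit disc with `h 0 = 0`,
`Q` holomorphic off `0` and small at infinity.
-/

open Set MeasureTheory Complex Metric Filter Topology

namespace Pool.H40.Area

noncomputable section

lemma exp_injOn_rect (a b : ℝ) : InjOn Complex.exp (Ioc a b ×ℂ Ioc 0 (2 * Real.pi)) := by
  intro z hz w hw h
  rw [mem_reProdIm] at hz hw
  obtain ⟨n, hn⟩ := Complex.exp_eq_exp_iff_exists_int.1 h
  have him : z.im = w.im + n * (2 * Real.pi) := by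
    have := congrArg Complex.im hn
    simpa using this
  have hpi := Real.pi_pos
  have hn0 : n = 0 := by
    have h1 : (n : ℝ) * (2 * Real.pi) < 1 * (2 * Real.pi) := by
      have := hz.2.2; have := hw.2.1; linarith
    have h2 : (-1 : ℝ) * (2 * Real.pi) < n * (2 * Real.pi) := by
      have := hz.2.1; have := hw.2.2; linarith
    have h3 : (n : ℝ) < 1 := lt_of_mul_lt_mul_right h1 (by positivity)
    have h4 : (-1 : ℝ) < n := lt_of_mul_lt_mul_right h2 (by positivity)
    have h5 : n < 1 := by exact_mod_cast h3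
    have h6 : -1 < n := by exact_mod_cast h4
    omega
  rw [hn, hn0]
  simp

/-- Integral of `F(h(z)) h'(z) z` over the circle `|z| = e^b`. -/
def circ (F h : ℂ → ℂ) (b : ℝ) : ℂ :=
  ∫ y in (0:ℝ)..(2 * Real.pi), F (h (Complex.exp (b + y * I))) *
    (deriv h (Complex.exp (b + y * I)) * Complex.exp (b + y * I))

lemma norm_exp_aux (x y : ℝ) : ‖Complex.exp (x + y * I)‖ = Real.exp x := by
  rw [Complex.norm_exp]; simp

/-- transfer formula -/
lemma circ_transfer {h F : ℂ → ℂ} {r : ℝ} (hh : DifferentiableOn ℂ h (ball 0 r))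
    (hinj : InjOn h (ball 0 r)) (hF : ContDiff ℝ 1 F) {a b : ℝ} (hab : a ≤ b)
    (hb : Real.exp b < r) :
    I * circ F h b - I * circ F h a =
      ∫ w in (fun ζ => h (Complex.exp ζ)) '' (Ioc a b ×ℂ Ioc 0 (2 * Real.pi)), dbar F w := by
  have hball : ∀ x ∈ Icc a b, ∀ y : ℝ, Complex.exp (x + y * I) ∈ ball (0:ℂ) r := by
    intro x hx y
    rw [mem_ball_zero_iff, norm_exp_aux]
    exact lt_of_le_of_lt (Real.exp_le_exp.2 hx.2) hb
  have hhan : AnalyticOnNhd ℂ h (ball 0 r) := hh.analyticOnNhd isOpen_ball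
  have hV : ContDiffOn ℝ 1 (fun z => F (h z) * deriv h z) (ball 0 r) := by
    have h1 : ContDiffOn ℂ 1 h (ball 0 r) := hhan.contDiffOn (isOpen_ball.uniqueDiffOn)
    have h2 : ContDiffOn ℂ 1 (deriv h) (ball 0 r) := hhan.deriv.contDiffOn (isOpen_ball.uniqueDiffOn)
    exact (hF.comp_contDiffOn (h1.restrict_scalars ℝ)).mul (h2.restrict_scalars ℝ)
  have key := green_polar isOpen_ball hV hab hball
  simp only [mul_assoc] at key
  unfold circ
  rw [key]
  have hmem : ∀ z ∈ (Ioc a b ×ℂ Ioc 0 (2 * Real.pi)), Complex.exp z ∈ ball (0:ℂ) r := by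
    intro z hz
    rw [mem_reProdIm] at hz
    have := hball z.re (Ioc_subset_Icc_self hz.1) z.im
    rwa [Complex.re_add_im] at this
  rw [change_var (measurableSet_rect a b 0 (2 * Real.pi)) (φ := fun ζ => h (Complex.exp ζ))]
  · refine setIntegral_congr_fun (measurableSet_rect _ _ _ _) fun z hz => ?_
    have hz1 := hmem z hz
    have h1 := dbar_comp (V := F) (φ := h) (z := Complex.exp z)
      (hF.differentiable (by norm_num) _) (hhan _ hz1)
    have h2 : deriv (fun ζ => h (Complex.exp ζ)) z = deriv h (Complex.exp z) * Complex.exp z := by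
      have := ((hhan _ hz1).differentiableAt.hasDerivAt).comp z (Complex.hasDerivAt_exp z)
      exact this.deriv
    rw [h1, h2, norm_mul]
    push_cast
    ring
  · intro z hz
    exact ((hhan _ (hmem z hz)).differentiableAt).comp z Complex.differentiableAt_exp
  · intro z hz w hw hzw
    exact exp_injOn_rect a b hz hw (hinj (hmem z hz) (hmem w hw) hzw)

/-- the cut-off integrand `(1 - χ) * conj Q * Q'` -/
def cutF (Q : ℂ → ℂ) (χ : ContDiffBump (0:ℂ)) (w : ℂ) : ℂ :=
  ((1 - χ w : ℝ) : ℂ) * ((starRingEnd ℂ) (Q w) * deriv Q w)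

lemma cutF_contDiff {Q : ℂ → ℂ} (hQ : DifferentiableOn ℂ Q {0}ᶜ) (χ : ContDiffBump (0:ℂ)) :
    ContDiff ℝ 1 (cutF Q χ) := by
  have hQan : AnalyticOnNhd ℂ Q {0}ᶜ := hQ.analyticOnNhd isOpen_compl_singleton
  rw [contDiff_iff_contDiffAt]
  intro w
  by_cases hw : w = 0
  · subst hw
    have h1 : cutF Q χ =ᶠ[𝓝 0] fun _ => 0 := by
      filter_upwards [ball_mem_nhds (0:ℂ) χ.rIn_pos] with w hw
      unfold cutF
      rw [χ.one_of_mem_closedBall (ball_subset_closedBall hw)]
      simp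
    exact contDiffAt_const.congr_of_eventuallyEq h1
  · have h1 : ContDiffAt ℂ 1 Q w := (hQan w hw).contDiffAt
    have h2 : ContDiffAt ℂ 1 (deriv Q) w := (hQan.deriv w hw).contDiffAt
    have h3 : ContDiffAt ℝ 1 (fun w => (starRingEnd ℂ) (Q w)) w :=
      Complex.conjCLE.contDiff.contDiffAt.comp w (h1.restrict_scalars ℝ)
    have h4 : ContDiffAt ℝ 1 (fun w => ((1 - χ w : ℝ) : ℂ)) w := by
      have : ContDiffAt ℝ 1 (fun w => (1 - χ w : ℝ)) w := contDiffAt_const.sub χ.contDiffAt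
      exact Complex.ofRealCLM.contDiff.contDiffAt.comp w this
    exact h4.mul (h3.mul (h2.restrict_scalars ℝ))

lemma dbar_congr {F G : ℂ → ℂ} {w : ℂ} (h : F =ᶠ[𝓝 w] G) : dbar F w = dbar G w := by
  unfold dbar
  rw [h.fderiv_eq]

lemma dbar_conj_mul {Q : ℂ → ℂ} {w : ℂ} (hQ : AnalyticAt ℂ Q w) :
    dbar (fun w => (starRingEnd ℂ) (Q w) * deriv Q w) w = 2 * I * ((‖deriv Q w‖ ^ 2 : ℝ) : ℂ) := by
  have h1 : HasFDerivAt Q ((ContinuousLinearMap.toSpanSingleton ℂ (deriv Q w) : ℂ →L[ℂ] ℂ).restrictScalars ℝ) w :=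
    hQ.differentiableAt.hasDerivAt.hasFDerivAt.restrictScalars ℝ
  have h2 : HasFDerivAt (deriv Q) ((ContinuousLinearMap.toSpanSingleton ℂ (deriv (deriv Q) w) : ℂ →L[ℂ] ℂ).restrictScalars ℝ) w :=
    hQ.deriv.differentiableAt.hasDerivAt.hasFDerivAt.restrictScalars ℝ
  have h3 : HasFDerivAt (fun w => (starRingEnd ℂ) (Q w)) _ w :=
    (Complex.conjCLE.hasFDerivAt (x := Q w)).comp w h1
  have h4 : fderiv ℝ (fun w => (starRingEnd ℂ) (Q w) * deriv Q w) w = _ := (h3.mul h2).fderiv
  unfold dbar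
  rw [h4]
  have h6 : deriv Q w * (starRingEnd ℂ) (deriv Q w) = ((‖deriv Q w‖ ^ 2 : ℝ) : ℂ) := by
    rw [Complex.mul_conj, Complex.normSq_eq_norm_sq]
  rw [← h6]
  simp only [add_apply, smul_apply,
    ContinuousLinearMap.comp_apply, ContinuousLinearMap.coe_restrictScalars',
    ContinuousLinearMap.toSpanSingleton_apply, smul_eq_mul, one_mul,
    ContinuousLinearEquiv.coe_coe, Complex.conjCLE_apply, map_mul, Complex.conj_I]
  ring

lemma integrableOn_cont {F : ℂ → ℂ} (hF : ContDiff ℝ 1 F) {s : Set ℂ} {R : ℝ}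
    (hs : s ⊆ closedBall 0 R) : IntegrableOn (dbar F) s := by
  have h1 : Continuous (fderiv ℝ F) := hF.continuous_fderiv (by norm_num)
  have h2 : Continuous (dbar F) := by
    unfold dbar
    have h3 : Continuous (fun z => fderiv ℝ F z 1) := h1.clm_apply continuous_const
    have h4 : Continuous (fun z => fderiv ℝ F z I) := h1.clm_apply continuous_const
    exact (continuous_const.mul h3).sub h4
  exact (h2.continuousOn.integrableOn_compact (isCompact_closedBall 0 R)).mono_set hs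

lemma exists_log_rect {a b : ℝ} {z : ℂ} (h1 : Real.exp a < ‖z‖) (h2 : ‖z‖ ≤ Real.exp b) :
    ∃ ζ ∈ (Ioc a b ×ℂ Ioc 0 (2 * Real.pi)), Complex.exp ζ = z := by
  have hz0 : 0 < ‖z‖ := lt_trans (Real.exp_pos a) h1
  have hz : z ≠ 0 := norm_pos_iff.1 hz0
  have hl1 : a < Real.log ‖z‖ := (Real.lt_log_iff_exp_lt hz0).2 h1
  have hl2 : Real.log ‖z‖ ≤ b := (Real.log_le_iff_le_exp hz0).2 h2
  have hpi := Real.pi_pos
  have hlog : Complex.exp (Real.log ‖z‖ + Complex.arg z * I) = z := by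
    have := Complex.exp_log hz
    rwa [Complex.log] at this
  by_cases harg : 0 < Complex.arg z
  · refine ⟨Real.log ‖z‖ + Complex.arg z * I, ?_, hlog⟩
    rw [mem_reProdIm]
    have := Complex.arg_le_pi z
    constructor
    · simpa using ⟨hl1, hl2⟩
    · simp
      exact ⟨harg, by linarith⟩
  · push Not at harg
    refine ⟨Real.log ‖z‖ + (Complex.arg z + 2 * Real.pi : ℝ) * I, ?_, ?_⟩
    · rw [mem_reProdIm]
      have := Complex.neg_pi_lt_arg z
      constructor
      · simpa using ⟨hl1, hl2⟩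
      · simp
        exact ⟨by linarith, by linarith⟩
    · have : (Real.log ‖z‖ + (Complex.arg z + 2 * Real.pi : ℝ) * I : ℂ)
          = (Real.log ‖z‖ + Complex.arg z * I) + 2 * Real.pi * I := by
        push_cast; ring
      rw [this, Complex.exp_add, Complex.exp_two_pi_mul_I, mul_one, hlog]

lemma exp_rect_norm {a b : ℝ} {ζ : ℂ} (hζ : ζ ∈ (Ioc a b ×ℂ Ioc 0 (2 * Real.pi))) :
    Real.exp a < ‖Complex.exp ζ‖ ∧ ‖Complex.exp ζ‖ ≤ Real.exp b := by
  rw [mem_reProdIm] at hζ
  rw [Complex.norm_exp]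
  exact ⟨Real.exp_lt_exp.2 hζ.1.1, Real.exp_le_exp.2 hζ.1.2⟩

/-- Area inequality on `|z| = e^b`. -/
theorem area_ineq_radius {h Q : ℂ → ℂ} {r : ℝ} (hh : DifferentiableOn ℂ h (ball 0 r))
    (hinj : InjOn h (ball 0 r)) (h0 : h 0 = 0) (h1 : deriv h 0 ≠ 0)
    (hQ : DifferentiableOn ℂ Q {0}ᶜ) {b c : ℝ} (hb : Real.exp b < r)
    (hc : ∀ z, ‖z‖ ≤ Real.exp b → ‖h z‖ ≤ Real.exp c) :
    (∫ y in (0:ℝ)..(2 * Real.pi), (starRingEnd ℂ) (Q (h (Complex.exp (b + y * I)))) *
      (deriv Q (h (Complex.exp (b + y * I))) *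
        (deriv h (Complex.exp (b + y * I)) * Complex.exp (b + y * I)))).re ≤
    (∫ y in (0:ℝ)..(2 * Real.pi), (starRingEnd ℂ) (Q (Complex.exp (c + y * I))) *
      (deriv Q (Complex.exp (c + y * I)) * Complex.exp (c + y * I))).re := by
  have hr : 0 < r := lt_trans (Real.exp_pos b) hb
  have hhan : AnalyticOnNhd ℂ h (ball 0 r) := hh.analyticOnNhd isOpen_ball
  have hbp := Real.exp_pos b
  -- small ball in the image
  have himg : h '' (ball 0 (Real.exp b)) ∈ 𝓝 (0:ℂ) := by
    have hs : HasStrictDerivAt h (deriv h 0) 0 :=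
      (hhan 0 (mem_ball_self hr)).hasStrictDerivAt
    have := hs.map_nhds_eq h1
    rw [h0] at this
    rw [← this]
    exact image_mem_map (ball_mem_nhds _ hbp)
  obtain ⟨δ0, hδ0, hδ0s⟩ := Metric.mem_nhds_iff.1 himg
  set δ : ℝ := δ0 / 4 with hδdef
  have hδ : 0 < δ := by positivity
  let χ : ContDiffBump (0:ℂ) := ⟨δ, 2 * δ, hδ, by linarith⟩
  set F := cutF Q χ with hFdef
  have hF : ContDiff ℝ 1 F := cutF_contDiff hQ χ
  have hF0 : ∀ w, ‖w‖ ≤ δ → F w = 0 := by
    intro w hw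
    rw [hFdef]
    unfold cutF
    rw [χ.one_of_mem_closedBall (by simpa using hw)]
    simp
  have hF1 : ∀ w, 2 * δ ≤ ‖w‖ → F w = (starRingEnd ℂ) (Q w) * deriv Q w := by
    intro w hw
    rw [hFdef]
    unfold cutF
    rw [χ.zero_of_le_dist (by simpa using hw)]
    simp
  have hd0 : ∀ w, ‖w‖ < δ → dbar F w = 0 := by
    intro w hw
    have : F =ᶠ[𝓝 w] fun _ => 0 := by
      filter_upwards [isOpen_ball.mem_nhds (show w ∈ ball (0:ℂ) δ by simpa using hw)] with v hv
      exact hF0 v (le_of_lt (by simpa using hv))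
    rw [dbar_congr this]
    simp [dbar]
  have hd1 : ∀ w, 2 * δ < ‖w‖ → dbar F w = 2 * I * ((‖deriv Q w‖ ^ 2 : ℝ) : ℂ) := by
    intro w hw
    have hopen : IsOpen {v : ℂ | 2 * δ < ‖v‖} := isOpen_lt continuous_const continuous_norm
    have : F =ᶠ[𝓝 w] fun w => (starRingEnd ℂ) (Q w) * deriv Q w := by
      filter_upwards [hopen.mem_nhds hw] with v hv
      exact hF1 v (le_of_lt hv)
    rw [dbar_congr this]
    apply dbar_conj_mul
    apply hQ.analyticOnNhd isOpen_compl_singleton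
    rintro (rfl : w = 0)
    simp at hw
    linarith
  -- inner radius for h
  have hcont0 : ContinuousAt h 0 := (hhan 0 (mem_ball_self hr)).continuousAt
  obtain ⟨η, hη, hηs⟩ := Metric.continuousAt_iff.1 hcont0 δ hδ
  obtain ⟨a, hab, haη⟩ : ∃ a ≤ b, Real.exp a < η := by
    refine ⟨min b (Real.log (η / 2)), min_le_left _ _, ?_⟩
    calc Real.exp (min b (Real.log (η / 2))) ≤ Real.exp (Real.log (η / 2)) :=
          Real.exp_le_exp.2 (min_le_right _ _)
      _ = η / 2 := Real.exp_log (by positivity)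
      _ < η := by linarith
  have hha : ∀ z, ‖z‖ ≤ Real.exp a → ‖h z‖ < δ := by
    intro z hz
    have := @hηs z (by simpa using lt_of_le_of_lt hz haη)
    simpa [h0] using this
  obtain ⟨a', hac, haδ⟩ : ∃ a' ≤ c, Real.exp a' < δ := by
    refine ⟨min c (Real.log (δ / 2)), min_le_left _ _, ?_⟩
    calc Real.exp (min c (Real.log (δ / 2))) ≤ Real.exp (Real.log (δ / 2)) :=
          Real.exp_le_exp.2 (min_le_right _ _)
      _ = δ / 2 := Real.exp_log (by positivity)
      _ < δ := by linarith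
  -- the two transfer identities
  have hE1 := circ_transfer hh hinj hF hab hb
  have hid : DifferentiableOn ℂ (fun z : ℂ => z) (ball 0 (Real.exp c + 1)) :=
    differentiableOn_id
  have hE2 := circ_transfer (h := fun z : ℂ => z) (F := F) hid (fun x _ y _ hxy => hxy) hF hac
    (by linarith)
  have hz1 : circ F h a = 0 := by
    unfold circ
    have : ∀ y : ℝ, F (h (Complex.exp (a + y * I))) = 0 := fun y =>
      hF0 _ (le_of_lt (hha _ (by rw [norm_exp_aux])))
    simp [this]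
  have hz2 : circ F (fun z : ℂ => z) a' = 0 := by
    unfold circ
    have : ∀ y : ℝ, F (Complex.exp (a' + y * I)) = 0 := fun y =>
      hF0 _ (by rw [norm_exp_aux]; exact le_of_lt haδ)
    simp [this]
  rw [hz1, mul_zero, sub_zero] at hE1
  rw [hz2, mul_zero, sub_zero] at hE2
  set E1 := (fun ζ => h (Complex.exp ζ)) '' (Ioc a b ×ℂ Ioc 0 (2 * Real.pi)) with hE1def
  set E2 := (fun ζ : ℂ => (Complex.exp ζ)) '' (Ioc a' c ×ℂ Ioc 0 (2 * Real.pi)) with hE2def
  -- descriptions
  have hE1mem : ∀ w, w ∈ E1 ↔ ∃ z, Real.exp a < ‖z‖ ∧ ‖z‖ ≤ Real.exp b ∧ h z = w := by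
    intro w
    constructor
    · rintro ⟨ζ, hζ, rfl⟩
      exact ⟨Complex.exp ζ, (exp_rect_norm hζ).1, (exp_rect_norm hζ).2, rfl⟩
    · rintro ⟨z, hz1, hz2, rfl⟩
      obtain ⟨ζ, hζ, rfl⟩ := exists_log_rect hz1 hz2
      exact ⟨ζ, hζ, rfl⟩
  have hE2mem : ∀ w, w ∈ E2 ↔ Real.exp a' < ‖w‖ ∧ ‖w‖ ≤ Real.exp c := by
    intro w
    constructor
    · rintro ⟨ζ, hζ, rfl⟩
      exact exp_rect_norm hζ
    · rintro ⟨hz1, hz2⟩
      obtain ⟨ζ, hζ, rfl⟩ := exists_log_rect hz1 hz2
      exact ⟨ζ, hζ, rfl⟩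
  have hm1 : MeasurableSet E1 := by
    apply (measurableSet_rect a b 0 (2 * Real.pi)).image_of_continuousOn_injOn
    · intro ζ hζ
      have hmem : Complex.exp ζ ∈ ball (0:ℂ) r := by
        rw [mem_ball_zero_iff]
        exact lt_of_le_of_lt (exp_rect_norm hζ).2 hb
      exact ((hhan _ hmem).continuousAt.comp Complex.continuous_exp.continuousAt).continuousWithinAt
    · intro z hz w hw hzw
      refine exp_injOn_rect a b hz hw (hinj ?_ ?_ hzw)
      · rw [mem_ball_zero_iff]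
        exact lt_of_le_of_lt (exp_rect_norm hz).2 hb
      · rw [mem_ball_zero_iff]
        exact lt_of_le_of_lt (exp_rect_norm hw).2 hb
  have hm2 : MeasurableSet E2 := by
    apply (measurableSet_rect a' c 0 (2 * Real.pi)).image_of_continuousOn_injOn
    · exact Complex.continuous_exp.continuousOn
    · exact exp_injOn_rect a' c
  have hfar : ∀ z, z ∈ ball (0:ℂ) r → Real.exp b ≤ ‖z‖ → 4 * δ ≤ ‖h z‖ := by
    intro z hzr hz
    by_contra hlt
    push Not at hlt
    have : h z ∈ ball (0:ℂ) δ0 := by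
      rw [mem_ball_zero_iff]
      have : 4 * δ = δ0 := by rw [hδdef]; ring
      linarith
    obtain ⟨z', hz', hzz⟩ := hδ0s this
    have hz'r : z' ∈ ball (0:ℂ) r := by
      rw [mem_ball_zero_iff] at hz' ⊢
      linarith
    have := hinj hz'r hzr hzz
    rw [mem_ball_zero_iff, this] at hz'
    linarith
  have hs1 : E1 ⊆ closedBall 0 (Real.exp c) := by
    intro w hw
    obtain ⟨z, _, hz2, rfl⟩ := (hE1mem w).1 hw
    simpa using hc z hz2
  have hs2 : E2 ⊆ closedBall 0 (Real.exp c) := by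
    intro w hw
    simpa using ((hE2mem w).1 hw).2
  have hi1 : IntegrableOn (dbar F) E1 := integrableOn_cont hF hs1
  have hi2 : IntegrableOn (dbar F) E2 := integrableOn_cont hF hs2
  have e1 := integral_inter_add_sdiff hm2 hi1
  have e2 := integral_inter_add_sdiff hm1 hi2
  have e3 : ∫ w in E1 \ E2, dbar F w = 0 := by
    rw [setIntegral_congr_fun (g := fun _ => (0:ℂ)) (hm1.diff hm2)]
    · simp
    · intro w hw
      apply hd0
      by_contra hlt
      push Not at hlt
      apply hw.2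
      rw [hE2mem]
      refine ⟨lt_of_lt_of_le haδ hlt, ?_⟩
      simpa using hs1 hw.1
  have e4 : ∃ ρ : ℝ, 0 ≤ ρ ∧ ∫ w in E2 \ E1, dbar F w = I * ρ := by
    have hpt : ∀ w ∈ E2 \ E1, ∃ t : ℝ, 0 ≤ t ∧ dbar F w = I * t := by
      intro w hw
      by_cases hwU : ∃ z, ‖z‖ ≤ Real.exp b ∧ h z = w
      · obtain ⟨z, hz, rfl⟩ := hwU
        have hza : ‖z‖ ≤ Real.exp a := by
          by_contra hlt
          push Not at hlt
          exact hw.2 ((hE1mem _).2 ⟨z, hlt, hz, rfl⟩)
        exact ⟨0, le_rfl, by rw [hd0 _ (hha z hza)]; simp⟩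
      · have hwδ : 2 * δ < ‖w‖ := by
          by_contra hlt
          push Not at hlt
          have : w ∈ ball (0:ℂ) δ0 := by
            rw [mem_ball_zero_iff]
            have : 4 * δ = δ0 := by rw [hδdef]; ring
            linarith
          obtain ⟨z', hz', hzz⟩ := hδ0s this
          rw [mem_ball_zero_iff] at hz'
          exact hwU ⟨z', le_of_lt hz', hzz⟩
        refine ⟨2 * ‖deriv Q w‖ ^ 2, by positivity, ?_⟩
        rw [hd1 w hwδ]
        push_cast
        ring
    have hpt2 : ∀ w ∈ E2 \ E1, dbar F w = I * (((dbar F w).im : ℝ) : ℂ) ∧ 0 ≤ (dbar F w).im := by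
      intro w hw
      obtain ⟨t, ht, htw⟩ := hpt w hw
      have : (dbar F w).im = t := by rw [htw]; simp
      rw [this]
      exact ⟨htw, ht⟩
    refine ⟨∫ w in E2 \ E1, (dbar F w).im, ?_, ?_⟩
    · exact setIntegral_nonneg (hm2.diff hm1) fun w hw => (hpt2 w hw).2
    · rw [← integral_complex_ofReal, ← integral_const_mul]
      exact setIntegral_congr_fun (hm2.diff hm1) fun w hw => (hpt2 w hw).1
  obtain ⟨ρ, hρ, e4⟩ := e4
  rw [inter_comm, e3, add_zero] at e1
  have e5 : I * circ F (fun z : ℂ => z) c = I * circ F h b + I * ρ := by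
    rw [hE1, hE2, ← e1, ← e2, e4]
  have e6 : circ F (fun z : ℂ => z) c = circ F h b + ρ := by
    have := mul_left_cancel₀ I_ne_zero (e5.trans (by ring : _ = I * (circ F h b + ρ)))
    exact this
  have e7 : circ F h b = ∫ y in (0:ℝ)..(2 * Real.pi), (starRingEnd ℂ) (Q (h (Complex.exp (b + y * I)))) *
      (deriv Q (h (Complex.exp (b + y * I))) *
        (deriv h (Complex.exp (b + y * I)) * Complex.exp (b + y * I))) := by
    unfold circ
    apply intervalIntegral.integral_congr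
    intro y _
    have hy : Complex.exp (b + y * I) ∈ ball (0:ℂ) r := by
      rw [mem_ball_zero_iff, norm_exp_aux]; exact hb
    have := hfar _ hy (by rw [norm_exp_aux])
    simp only
    rw [hF1 _ (by linarith)]
    ring
  have e8 : circ F (fun z : ℂ => z) c = ∫ y in (0:ℝ)..(2 * Real.pi), (starRingEnd ℂ) (Q (Complex.exp (c + y * I))) *
      (deriv Q (Complex.exp (c + y * I)) * Complex.exp (c + y * I)) := by
    have hcδ : 2 * δ ≤ Real.exp c := by
      have : ((3 * δ : ℝ) : ℂ) ∈ ball (0:ℂ) δ0 := by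
        rw [mem_ball_zero_iff, Complex.norm_real, Real.norm_eq_abs, abs_of_pos (by linarith)]
        have : 4 * δ = δ0 := by rw [hδdef]; ring
        linarith
      obtain ⟨z', hz', hzz⟩ := hδ0s this
      rw [mem_ball_zero_iff] at hz'
      have h2 := hc z' (le_of_lt hz')
      rw [hzz, Complex.norm_real, Real.norm_eq_abs, abs_of_pos (by linarith)] at h2
      linarith
    unfold circ
    apply intervalIntegral.integral_congr
    intro y _
    simp only
    rw [hF1 _ (by rw [norm_exp_aux]; exact hcδ)]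
    have : deriv (fun z : ℂ => z) (Complex.exp (c + y * I)) = 1 := (hasDerivAt_id _).deriv
    rw [this]
    ring
  rw [← e7, ← e8, e6]
  simp [hρ]

end

end Pool.H40.Area
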