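import Pool.Agent.H40.Area.Area

/-!
Finite coefficient form of the area inequality.
-/

open Set MeasureTheory Complex Metric Filter Topology

namespace Pool.H40.Area

noncomputable section

/-- mean value property in our parametrisation -/
lemma mean_value {φ : ℂ → ℂ} {r : ℝ} (hφ : DifferentiableOn ℂ φ (ball 0 r)) {b : ℝ}
    (hb : Real.exp b < r) :
    ∫ y in (0:ℝ)..(2 * Real.pi), φ (Complex.exp (b + y * I)) = 2 * Real.pi * φ 0 := by
  have h1 : ∀ y : ℝ, circleMap 0 (Real.exp b) y = Complex.exp (b + y * I) := by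
    intro y
    rw [circleMap, Complex.exp_add, Complex.ofReal_exp, zero_add]
  have h2 : Real.circleAverage φ 0 (Real.exp b) = φ 0 := by
    apply circleAverage_of_differentiable_on_off_countable (s := ∅) (by simp)
    · rw [abs_of_pos (Real.exp_pos b)]
      exact hφ.continuousOn.mono (closedBall_subset_ball hb)
    · intro z hz
      rw [abs_of_pos (Real.exp_pos b)] at hz
      exact hφ.differentiableAt (isOpen_ball.mem_nhds (ball_subset_ball hb.le hz.1))
  rw [Real.circleAverage_def] at h2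
  simp only [h1] at h2
  have hpi' : (Real.pi : ℂ) ≠ 0 := by exact_mod_cast Real.pi_ne_zero
  rw [← h2, Complex.real_smul]
  push_cast
  rw [← mul_assoc, mul_inv_cancel₀ (by simp [hpi']), one_mul]

lemma conj_exp_zpow (b y : ℝ) (k : ℤ) :
    (starRingEnd ℂ) (Complex.exp (b + y * I) ^ k) =
      ((Real.exp b ^ 2) ^ k : ℝ) * (Complex.exp (b + y * I) ^ (-k)) := by
  have hz : Complex.exp (b + y * I) ≠ 0 := Complex.exp_ne_zero _
  have h1 : (starRingEnd ℂ) (Complex.exp (b + y * I)) * Complex.exp (b + y * I) =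
      ((Real.exp b ^ 2 : ℝ) : ℂ) := by
    rw [mul_comm, Complex.mul_conj, Complex.normSq_eq_norm_sq, norm_exp_aux]
  have h2 : (starRingEnd ℂ) (Complex.exp (b + y * I)) =
      ((Real.exp b ^ 2 : ℝ) : ℂ) * (Complex.exp (b + y * I))⁻¹ := by
    rw [← h1]
    field_simp
  rw [map_zpow₀, h2, mul_zpow, inv_zpow', zpow_neg]
  push_cast
  ring

lemma continuous_exp_aux (b : ℝ) : Continuous (fun y : ℝ => Complex.exp (b + y * I)) := by
  fun_prop

/-- orthogonality: `∫ conj(z^k) z^N A(z) dy = 0` for `k < N`. -/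
lemma orth {A : ℂ → ℂ} {r : ℝ} (hA : DifferentiableOn ℂ A (ball 0 r)) {b : ℝ}
    (hb : Real.exp b < r) {k : ℤ} {N : ℕ} (hk : k < N) :
    ∫ y in (0:ℝ)..(2 * Real.pi), (starRingEnd ℂ) (Complex.exp (b + y * I) ^ k) *
      (Complex.exp (b + y * I) ^ N * A (Complex.exp (b + y * I))) = 0 := by
  obtain ⟨m, hm⟩ : ∃ m : ℕ, (N : ℤ) - k = m + 1 := ⟨((N : ℤ) - k - 1).toNat, by omega⟩
  have h1 : ∀ y : ℝ, (starRingEnd ℂ) (Complex.exp (b + y * I) ^ k) *
      (Complex.exp (b + y * I) ^ N * A (Complex.exp (b + y * I))) =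
      (((Real.exp b ^ 2) ^ k : ℝ) : ℂ) *
        ((fun z : ℂ => z ^ (m + 1) * A z) (Complex.exp (b + y * I))) := by
    intro y
    have hz : Complex.exp (b + y * I) ≠ 0 := Complex.exp_ne_zero _
    rw [conj_exp_zpow]
    have : Complex.exp (b + y * I) ^ (-k) * Complex.exp (b + y * I) ^ N
        = Complex.exp (b + y * I) ^ (m + 1) := by
      rw [← zpow_natCast _ N, ← zpow_add₀ hz, ← zpow_natCast _ (m + 1)]
      congr 1
      push_cast
      omega
    simp only
    rw [← this]
    ring
  have h2 : ∫ y in (0:ℝ)..(2 * Real.pi), (Complex.exp (b + y * I)) ^ (m + 1) *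
      A (Complex.exp (b + y * I)) = 2 * Real.pi * ((0:ℂ) ^ (m + 1) * A 0) :=
    mean_value (φ := fun z : ℂ => z ^ (m + 1) * A z) ((differentiableOn_id.pow _).mul hA) hb
  simp only [h1]
  rw [intervalIntegral.integral_const_mul, h2]
  simp

/-- the diagonal case -/
lemma orth_zpow {b : ℝ} {k l : ℤ} :
    ∫ y in (0:ℝ)..(2 * Real.pi), (starRingEnd ℂ) (Complex.exp (b + y * I) ^ k) *
      Complex.exp (b + y * I) ^ l = if k = l then 2 * Real.pi * ((Real.exp b ^ 2) ^ k : ℝ) else 0 := by
  have h1 : ∀ y : ℝ, (starRingEnd ℂ) (Complex.exp (b + y * I) ^ k) *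
      Complex.exp (b + y * I) ^ l =
      (((Real.exp b ^ 2) ^ k : ℝ) : ℂ) * (Complex.exp (b * (l - k)) * Complex.exp (((l - k : ℤ) * I) * y)) := by
    intro y
    have hz : Complex.exp (b + y * I) ≠ 0 := Complex.exp_ne_zero _
    rw [conj_exp_zpow, mul_assoc, ← zpow_add₀ hz, ← Complex.exp_int_mul, ← Complex.exp_add]
    congr 2
    push_cast
    ring
  simp only [h1]
  rw [intervalIntegral.integral_const_mul, intervalIntegral.integral_const_mul]
  split_ifs with hkl
  · subst hkl
    simp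
    ring
  · have hne : (((l - k : ℤ) : ℂ) * I) ≠ 0 := by
      apply mul_ne_zero _ I_ne_zero
      exact_mod_cast sub_ne_zero.2 (Ne.symm hkl)
    rw [integral_exp_mul_complex hne]
    have : Complex.exp (((l - k : ℤ) : ℂ) * I * ((2 * Real.pi : ℝ) : ℂ)) = 1 := by
      rw [Complex.exp_eq_one_iff]
      exact ⟨l - k, by push_cast; ring⟩
    rw [this]
    simp

/-- `Re ∫ conj τ z τ' ≥ 0`. -/
lemma pos_part {τ : ℂ → ℂ} {r : ℝ} (hτ : DifferentiableOn ℂ τ (ball 0 r)) {b : ℝ}
    (hb : Real.exp b < r) :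
    0 ≤ (∫ y in (0:ℝ)..(2 * Real.pi), (starRingEnd ℂ) (τ (Complex.exp (b + y * I))) *
      (deriv τ (Complex.exp (b + y * I)) * Complex.exp (b + y * I))).re := by
  have hr : 0 < r := lt_trans (Real.exp_pos b) hb
  have han : AnalyticOnNhd ℂ τ (ball 0 r) := hτ.analyticOnNhd isOpen_ball
  set J : ℝ → ℂ := fun a => ∫ y in (0:ℝ)..(2 * Real.pi), (starRingEnd ℂ) (τ (Complex.exp (a + y * I))) *
      (deriv τ (Complex.exp (a + y * I)) * Complex.exp (a + y * I)) with hJ
  -- monotone
  have hmono : ∀ a ≤ b, (J a).re ≤ (J b).re := by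
    intro a hab
    have hball : ∀ x ∈ Icc a b, ∀ y : ℝ, Complex.exp (x + y * I) ∈ ball (0:ℂ) r := by
      intro x hx y
      rw [mem_ball_zero_iff, norm_exp_aux]
      exact lt_of_le_of_lt (Real.exp_le_exp.2 hx.2) hb
    have hV : ContDiffOn ℝ 1 (fun z => (starRingEnd ℂ) (τ z) * deriv τ z) (ball 0 r) := by
      have h1 : ContDiffOn ℂ 1 τ (ball 0 r) := han.contDiffOn (isOpen_ball.uniqueDiffOn)
      have h2 : ContDiffOn ℂ 1 (deriv τ) (ball 0 r) := han.deriv.contDiffOn (isOpen_ball.uniqueDiffOn)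
      exact (Complex.conjCLE.contDiff.comp_contDiffOn (h1.restrict_scalars ℝ)).mul (h2.restrict_scalars ℝ)
    have key := green_polar isOpen_ball hV hab hball
    have hint : ∫ z in (Ioc a b ×ℂ Ioc 0 (2 * Real.pi)),
        ((‖Complex.exp z‖ ^ 2 : ℝ) : ℂ) * dbar (fun z => (starRingEnd ℂ) (τ z) * deriv τ z) (Complex.exp z)
        = ∫ z in (Ioc a b ×ℂ Ioc 0 (2 * Real.pi)),
          I * ((‖Complex.exp z‖ ^ 2 * (2 * ‖deriv τ (Complex.exp z)‖ ^ 2) : ℝ) : ℂ) := by
      refine setIntegral_congr_fun (measurableSet_rect _ _ _ _) fun z hz => ?_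
      rw [mem_reProdIm] at hz
      have hzb := hball z.re (Ioc_subset_Icc_self hz.1) z.im
      rw [Complex.re_add_im] at hzb
      rw [dbar_conj_mul (han _ hzb)]
      push_cast
      ring
    rw [hint, integral_const_mul, ← mul_sub] at key
    have key2 := mul_left_cancel₀ I_ne_zero key
    simp only [mul_assoc] at key2
    rw [integral_complex_ofReal] at key2
    have key3 : J b - J a = ((∫ z in (Ioc a b ×ℂ Ioc 0 (2 * Real.pi)),
        ‖Complex.exp z‖ ^ 2 * (2 * ‖deriv τ (Complex.exp z)‖ ^ 2) : ℝ) : ℂ) := key2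
    have h4 : 0 ≤ ∫ z in (Ioc a b ×ℂ Ioc 0 (2 * Real.pi)),
        ‖Complex.exp z‖ ^ 2 * (2 * ‖deriv τ (Complex.exp z)‖ ^ 2) :=
      setIntegral_nonneg (measurableSet_rect _ _ _ _) fun z _ => by positivity
    have h5 := congrArg Complex.re key3
    rw [Complex.sub_re, Complex.ofReal_re] at h5
    linarith
  -- small radius
  have hcont : ContinuousOn (fun z => (starRingEnd ℂ) (τ z) * (deriv τ z * z)) (closedBall 0 (Real.exp b)) := by
    have h1 : ContinuousOn τ (closedBall 0 (Real.exp b)) := hτ.continuousOn.mono (closedBall_subset_ball hb)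
    have h2 : ContinuousOn (deriv τ) (closedBall 0 (Real.exp b)) :=
      (han.deriv.continuousOn).mono (closedBall_subset_ball hb)
    exact (Complex.continuous_conj.comp_continuousOn h1).mul (h2.mul continuousOn_id)
  by_contra hneg
  push Not at hneg
  change (J b).re < 0 at hneg
  set ε := -(J b).re / (4 * Real.pi) with hε
  have hpi := Real.pi_pos
  have hεp : 0 < ε := by rw [hε]; apply div_pos <;> linarith
  have hc0 : ContinuousAt (fun z => (starRingEnd ℂ) (τ z) * (deriv τ z * z)) 0 :=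
    (hcont.continuousAt (closedBall_mem_nhds _ (Real.exp_pos b)))
  obtain ⟨η, hη, hηs⟩ := Metric.continuousAt_iff.1 hc0 ε hεp
  obtain ⟨a, hab, haη⟩ : ∃ a ≤ b, Real.exp a < η := by
    refine ⟨min b (Real.log (η / 2)), min_le_left _ _, ?_⟩
    calc Real.exp (min b (Real.log (η / 2))) ≤ Real.exp (Real.log (η / 2)) :=
          Real.exp_le_exp.2 (min_le_right _ _)
      _ = η / 2 := Real.exp_log (by positivity)
      _ < η := by linarith
  have h6 : ‖J a‖ ≤ ε * |2 * Real.pi - 0| := by
    apply intervalIntegral.norm_integral_le_of_norm_le_const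
    intro y _
    have := @hηs (Complex.exp (a + y * I)) (by rw [dist_zero_right, norm_exp_aux]; exact haη)
    simp only [mul_zero, dist_zero_right] at this
    exact this.le
  rw [sub_zero, abs_of_pos (by positivity)] at h6
  have h7 := Complex.abs_re_le_norm (J a)
  have h8 := neg_abs_le (J a).re
  have h9 := hmono a hab
  have h10 : ε * (2 * Real.pi) = -(J b).re / 2 := by
    rw [hε]; field_simp; norm_num
  linarith

/-- the area inequality after letting the outer radius tend to infinity -/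
lemma area_nonpos {h Q : ℂ → ℂ} (hh : DifferentiableOn ℂ h (ball 0 1))
    (hinj : InjOn h (ball 0 1)) (h0 : h 0 = 0) (h1 : deriv h 0 ≠ 0)
    (hQ : DifferentiableOn ℂ Q {0}ᶜ)
    (hinf : ∀ ε > 0, ∃ R : ℝ, ∀ w : ℂ, R ≤ ‖w‖ → ‖Q w‖ * (‖deriv Q w‖ * ‖w‖) ≤ ε)
    {b : ℝ} (hb : b < 0) :
    (∫ y in (0:ℝ)..(2 * Real.pi), (starRingEnd ℂ) (Q (h (Complex.exp (b + y * I)))) *
      (deriv Q (h (Complex.exp (b + y * I))) *
        (deriv h (Complex.exp (b + y * I)) * Complex.exp (b + y * I)))).re ≤ 0 := by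
  have hb1 : Real.exp b < 1 := by rw [← Real.exp_zero]; exact Real.exp_lt_exp.2 hb
  have hpi := Real.pi_pos
  obtain ⟨M, hM⟩ : ∃ M : ℝ, ∀ z ∈ closedBall (0:ℂ) (Real.exp b), ‖h z‖ ≤ M :=
    (isCompact_closedBall (0:ℂ) (Real.exp b)).exists_bound_of_continuousOn
      (hh.continuousOn.mono (closedBall_subset_ball hb1))
  apply le_of_forall_pos_le_add
  intro ε hε
  rw [zero_add]
  obtain ⟨R, hR⟩ := hinf (ε / (2 * Real.pi)) (by positivity)
  obtain ⟨c, hc⟩ : ∃ c : ℝ, max M R ≤ Real.exp c := by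
    refine ⟨max M R, ?_⟩
    have := Real.add_one_le_exp (max M R)
    linarith
  have h2 := area_ineq_radius hh hinj h0 h1 hQ hb1 (c := c) (by
    intro z hz
    exact (hM z (by simpa using hz)).trans ((le_max_left _ _).trans hc))
  refine h2.trans ?_
  refine (Complex.re_le_norm _).trans ?_
  have h3 : ‖∫ y in (0:ℝ)..(2 * Real.pi), (starRingEnd ℂ) (Q (Complex.exp (c + y * I))) *
      (deriv Q (Complex.exp (c + y * I)) * Complex.exp (c + y * I))‖
      ≤ (ε / (2 * Real.pi)) * |2 * Real.pi - 0| := by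
    apply intervalIntegral.norm_integral_le_of_norm_le_const
    intro y _
    rw [norm_mul, norm_mul, RCLike.norm_conj]
    exact hR _ (by rw [norm_exp_aux]; exact (le_max_right _ _).trans hc)
  rw [sub_zero, abs_of_pos (by positivity)] at h3
  refine h3.trans (le_of_eq ?_)
  field_simp

lemma split_alg (s : Finset ℤ) (p u : ℤ → ℂ) (B B1 : ℂ) :
    (starRingEnd ℂ) ((∑ k ∈ s, p k * u k) + B) * ((∑ k ∈ s, (k * p k) * u k) + B1) =
      ((∑ k ∈ s, ∑ l ∈ s, ((starRingEnd ℂ) (p k) * (l * p l)) * ((starRingEnd ℂ) (u k) * u l)) +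
        (∑ k ∈ s, (starRingEnd ℂ) (p k) * ((starRingEnd ℂ) (u k) * B1))) +
      ((∑ l ∈ s, (l * p l) * (starRingEnd ℂ) ((starRingEnd ℂ) (u l) * B)) +
        (starRingEnd ℂ) B * B1) := by
  rw [map_add, add_mul, mul_add, mul_add]
  congr 1
  · congr 1
    · rw [map_sum, Finset.sum_mul_sum]
      refine Finset.sum_congr rfl fun k _ => Finset.sum_congr rfl fun l _ => ?_
      rw [map_mul]; ring
    · rw [map_sum, Finset.sum_mul]
      refine Finset.sum_congr rfl fun k _ => ?_
      rw [map_mul]; ring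
  · congr 1
    rw [Finset.mul_sum]
    refine Finset.sum_congr rfl fun k _ => ?_
    rw [map_mul, Complex.conj_conj]; ring

/-- Finite coefficient form. -/
theorem coeff_area {h Q T : ℂ → ℂ} (hh : DifferentiableOn ℂ h (ball 0 1))
    (hinj : InjOn h (ball 0 1)) (h0 : h 0 = 0) (h1 : deriv h 0 ≠ 0)
    (hQ : DifferentiableOn ℂ Q {0}ᶜ)
    (hinf : ∀ ε > 0, ∃ R : ℝ, ∀ w : ℂ, R ≤ ‖w‖ → ‖Q w‖ * (‖deriv Q w‖ * ‖w‖) ≤ ε)
    (s : Finset ℤ) (p : ℤ → ℂ) (N : ℕ) (hs : ∀ k ∈ s, k < N)
    (hT : DifferentiableOn ℂ T (ball 0 1))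
    (hrel : ∀ z ∈ ball (0:ℂ) 1, z ≠ 0 → Q (h z) = (∑ k ∈ s, p k * z ^ k) + z ^ N * T z) :
    ∑ k ∈ s, (k : ℝ) * ‖p k‖ ^ 2 ≤ 0 := by
  have hTan : AnalyticOnNhd ℂ T (ball 0 1) := hT.analyticOnNhd isOpen_ball
  set S : ℂ → ℂ := fun z => N * T z + z * deriv T z with hS
  have hSd : DifferentiableOn ℂ S (ball 0 1) := by
    apply DifferentiableOn.add
    · exact hT.const_mul _
    · exact differentiableOn_id.mul hTan.deriv.differentiableOn
  have hτd : ∀ z ∈ ball (0:ℂ) 1, deriv (fun z => z ^ N * T z) z * z = z ^ N * S z := by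
    intro z hz
    have e1 : HasDerivAt (fun z : ℂ => z ^ N * T z) (N * z ^ (N - 1) * T z + z ^ N * deriv T z) z := by
      exact (hasDerivAt_pow N z).fun_mul (hTan z hz).differentiableAt.hasDerivAt
    rw [e1.deriv, hS]
    rcases Nat.eq_zero_or_pos N with hN | hN
    · subst hN; simp; ring
    · obtain ⟨M, rfl⟩ : ∃ M, N = M + 1 := ⟨N - 1, by omega⟩
      simp only [Nat.add_sub_cancel, pow_succ]
      ring
  have hdiff : ∀ z ∈ ball (0:ℂ) 1, z ≠ 0 →
      deriv Q (h z) * (deriv h z * z) = (∑ k ∈ s, (k * p k) * z ^ k) + z ^ N * S z := by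
    intro z hz hz0
    have hzn : h z ≠ 0 := by
      intro hcon
      exact hz0 (hinj hz (mem_ball_self one_pos) (hcon.trans h0.symm))
    have e1 : HasDerivAt (fun z => Q (h z)) (deriv Q (h z) * deriv h z) z := by
      have a1 : HasDerivAt Q (deriv Q (h z)) (h z) :=
        (hQ.differentiableAt (isOpen_compl_singleton.mem_nhds hzn)).hasDerivAt
      have a2 : HasDerivAt h (deriv h z) z := (hh.differentiableAt (isOpen_ball.mem_nhds hz)).hasDerivAt
      exact a1.comp z a2
    have e2 : HasDerivAt (fun z : ℂ => ∑ k ∈ s, p k * z ^ k) (∑ k ∈ s, p k * (k * z ^ (k - 1))) z := by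
      apply HasDerivAt.fun_sum
      intro k _
      exact (hasDerivAt_zpow k z (Or.inl hz0)).const_mul (p k)
    have e3 : HasDerivAt (fun z : ℂ => z ^ N * T z) (deriv (fun z => z ^ N * T z) z) z := by
      have : DifferentiableAt ℂ (fun z : ℂ => z ^ N * T z) z :=
        (differentiableAt_id.pow N).mul (hTan z hz).differentiableAt
      exact this.hasDerivAt
    have e4 : (fun z => Q (h z)) =ᶠ[𝓝 z] fun z => (∑ k ∈ s, p k * z ^ k) + z ^ N * T z := by
      filter_upwards [isOpen_ball.mem_nhds hz, isOpen_compl_singleton.mem_nhds (show z ∈ ({0}ᶜ : Set ℂ) from hz0)]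
        with v hv hv0
      exact hrel v hv hv0
    have e5 := (e1.congr_of_eventuallyEq e4.symm).unique (e2.add e3)
    rw [← mul_assoc, e5, add_mul, hτd z hz, Finset.sum_mul]
    congr 1
    apply Finset.sum_congr rfl
    intro k _
    have : z ^ (k - 1) * z = z ^ k := by
      rw [← zpow_add_one₀ hz0]; congr 1; ring
    rw [← this]; ring
  have key : ∀ b : ℝ, b < 0 → ∑ k ∈ s, (k : ℝ) * ‖p k‖ ^ 2 * (Real.exp b ^ 2) ^ k ≤ 0 := by
    intro b hb
    have hb1 : Real.exp b < 1 := by rw [← Real.exp_zero]; exact Real.exp_lt_exp.2 hb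
    have hmem : ∀ y : ℝ, Complex.exp (b + y * I) ∈ ball (0:ℂ) 1 := by
      intro y
      rw [mem_ball_zero_iff, norm_exp_aux]; exact hb1
    have hzne : ∀ y : ℝ, Complex.exp (b + y * I) ≠ 0 := fun y => Complex.exp_ne_zero _
    have hA := area_nonpos hh hinj h0 h1 hQ hinf hb
    have hcz : ∀ k : ℤ, Continuous (fun y : ℝ => Complex.exp (b + y * I) ^ k) := by
      intro k
      exact (continuous_exp_aux b).zpow₀ k (fun y => Or.inl (hzne y))
    have hcT : Continuous (fun y : ℝ => T (Complex.exp (b + y * I))) :=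
      hT.continuousOn.comp_continuous (continuous_exp_aux b) hmem
    have hcS : Continuous (fun y : ℝ => S (Complex.exp (b + y * I))) :=
      hSd.continuousOn.comp_continuous (continuous_exp_aux b) hmem
    have hcN : Continuous (fun y : ℝ => Complex.exp (b + y * I) ^ N) := (continuous_exp_aux b).pow N
    have hint : (∫ y in (0:ℝ)..(2 * Real.pi), (starRingEnd ℂ) (Q (h (Complex.exp (b + y * I)))) *
      (deriv Q (h (Complex.exp (b + y * I))) *
        (deriv h (Complex.exp (b + y * I)) * Complex.exp (b + y * I)))) =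
        (∑ k ∈ s, (2 * Real.pi * ((k : ℝ) * ‖p k‖ ^ 2 * (Real.exp b ^ 2) ^ k) : ℂ)) +
        ∫ y in (0:ℝ)..(2 * Real.pi), (starRingEnd ℂ) (Complex.exp (b + y * I) ^ N * T (Complex.exp (b + y * I))) *
          (Complex.exp (b + y * I) ^ N * S (Complex.exp (b + y * I))) := by
      let F1 : ℝ → ℂ := fun y => ∑ k ∈ s, ∑ l ∈ s, ((starRingEnd ℂ) (p k) * (l * p l)) *
            ((starRingEnd ℂ) (Complex.exp (b + y * I) ^ k) * Complex.exp (b + y * I) ^ l)
      let F2 : ℝ → ℂ := fun y => ∑ k ∈ s, (starRingEnd ℂ) (p k) *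
            ((starRingEnd ℂ) (Complex.exp (b + y * I) ^ k) *
            (Complex.exp (b + y * I) ^ N * S (Complex.exp (b + y * I))))
      let F3 : ℝ → ℂ := fun y => ∑ l ∈ s, (l * p l) *
            (starRingEnd ℂ) ((starRingEnd ℂ) (Complex.exp (b + y * I) ^ l) *
            (Complex.exp (b + y * I) ^ N * T (Complex.exp (b + y * I))))
      let F4 : ℝ → ℂ := fun y => (starRingEnd ℂ) (Complex.exp (b + y * I) ^ N *
          T (Complex.exp (b + y * I))) *
          (Complex.exp (b + y * I) ^ N * S (Complex.exp (b + y * I)))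
      have hsplit : ∀ y : ℝ, (starRingEnd ℂ) (Q (h (Complex.exp (b + y * I)))) *
          (deriv Q (h (Complex.exp (b + y * I))) *
          (deriv h (Complex.exp (b + y * I)) * Complex.exp (b + y * I))) =
          (F1 y + F2 y) + (F3 y + F4 y) := by
        intro y
        rw [hrel _ (hmem y) (hzne y), hdiff _ (hmem y) (hzne y)]
        exact split_alg s p (fun k => Complex.exp (b + y * I) ^ k) _ _
      simp only [hsplit]
      have hi1 : ∀ k l : ℤ, IntervalIntegrable (fun y : ℝ => ((starRingEnd ℂ) (p k) * (l * p l)) *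
            ((starRingEnd ℂ) (Complex.exp (b + y * I) ^ k) * Complex.exp (b + y * I) ^ l)) volume 0 (2 * Real.pi) := by
        intro k l
        apply Continuous.intervalIntegrable
        exact continuous_const.mul ((Complex.continuous_conj.comp (hcz k)).mul (hcz l))
      have hi1' : ∀ k : ℤ, IntervalIntegrable (fun y : ℝ => ∑ l ∈ s, ((starRingEnd ℂ) (p k) * (l * p l)) *
            ((starRingEnd ℂ) (Complex.exp (b + y * I) ^ k) * Complex.exp (b + y * I) ^ l)) volume 0 (2 * Real.pi) := by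
        intro k
        apply Continuous.intervalIntegrable
        apply continuous_finsetSum
        intro l _
        exact continuous_const.mul ((Complex.continuous_conj.comp (hcz k)).mul (hcz l))
      have hc1 : Continuous F1 := by
        apply continuous_finsetSum
        intro k _
        apply continuous_finsetSum
        intro l _
        exact continuous_const.mul ((Complex.continuous_conj.comp (hcz k)).mul (hcz l))
      have hc2k : ∀ k : ℤ, Continuous (fun y : ℝ => (starRingEnd ℂ) (p k) * ((starRingEnd ℂ) (Complex.exp (b + y * I) ^ k) *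
            (Complex.exp (b + y * I) ^ N * S (Complex.exp (b + y * I))))) := fun k =>
        continuous_const.mul ((Complex.continuous_conj.comp (hcz k)).mul (hcN.mul hcS))
      have hc2 : Continuous F2 :=
        continuous_finsetSum _ fun k _ => hc2k k
      have hc3k : ∀ l : ℤ, Continuous (fun y : ℝ => (l * p l) * (starRingEnd ℂ) ((starRingEnd ℂ) (Complex.exp (b + y * I) ^ l) *
            (Complex.exp (b + y * I) ^ N * T (Complex.exp (b + y * I))))) := fun l =>
        continuous_const.mul (Complex.continuous_conj.comp ((Complex.continuous_conj.comp (hcz l)).mul (hcN.mul hcT)))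
      have hc3 : Continuous F3 :=
        continuous_finsetSum _ fun k _ => hc3k k
      have hc4 : Continuous F4 :=
        (Complex.continuous_conj.comp (hcN.mul hcT)).mul (hcN.mul hcS)
      have hc12 : Continuous (fun y => F1 y + F2 y) := hc1.add hc2
      have hc34 : Continuous (fun y => F3 y + F4 y) := hc3.add hc4
      rw [intervalIntegral.integral_add (hc12.intervalIntegrable _ _) (hc34.intervalIntegrable _ _),
        intervalIntegral.integral_add (hc1.intervalIntegrable _ _) (hc2.intervalIntegrable _ _),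
        intervalIntegral.integral_add (hc3.intervalIntegrable _ _) (hc4.intervalIntegrable _ _)]
      have v2 : ∫ y in (0:ℝ)..(2 * Real.pi), F2 y = 0 := by
        simp only [F2]
        rw [intervalIntegral.integral_finsetSum fun k _ => (hc2k k).intervalIntegrable _ _]
        apply Finset.sum_eq_zero
        intro k hk
        rw [intervalIntegral.integral_const_mul, orth hSd hb1 (hs k hk), mul_zero]
      have v3 : ∫ y in (0:ℝ)..(2 * Real.pi), F3 y = 0 := by
        simp only [F3]
        rw [intervalIntegral.integral_finsetSum fun k _ => (hc3k k).intervalIntegrable _ _]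
        apply Finset.sum_eq_zero
        intro k hk
        rw [intervalIntegral.integral_const_mul]
        have : ∫ y in (0:ℝ)..(2 * Real.pi), (starRingEnd ℂ) ((starRingEnd ℂ) (Complex.exp (b + y * I) ^ k) *
            (Complex.exp (b + y * I) ^ N * T (Complex.exp (b + y * I)))) = 0 := by
          rw [intervalIntegral.integral_of_le (by positivity), integral_conj,
            ← intervalIntegral.integral_of_le (by positivity), orth hT hb1 (hs k hk), map_zero]
        rw [this, mul_zero]
      rw [v2, v3, add_zero, zero_add]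
      congr 1
      simp only [F1]
      rw [intervalIntegral.integral_finsetSum fun k _ => hi1' k]
      refine Finset.sum_congr rfl fun k hk => ?_
      rw [intervalIntegral.integral_finsetSum fun l _ => hi1 k l]
      rw [Finset.sum_eq_single k]
      · rw [intervalIntegral.integral_const_mul, orth_zpow, if_pos rfl]
        have : (starRingEnd ℂ) (p k) * p k = ((‖p k‖ ^ 2 : ℝ) : ℂ) := by
          rw [mul_comm, Complex.mul_conj, Complex.normSq_eq_norm_sq]
        calc (starRingEnd ℂ) (p k) * (k * p k) * ((2 * Real.pi * ((Real.exp b ^ 2) ^ k) : ℝ) : ℂ)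
            = ((starRingEnd ℂ) (p k) * p k) * k * ((2 * Real.pi * ((Real.exp b ^ 2) ^ k) : ℝ) : ℂ) := by ring
          _ = _ := by rw [this]; push_cast; ring
      · intro l _ hlk
        rw [intervalIntegral.integral_const_mul, orth_zpow, if_neg (Ne.symm hlk), Complex.ofReal_zero, mul_zero]
      · intro hk'
        exact absurd hk hk'
    have hpos := pos_part (τ := fun z => z ^ N * T z) (r := 1)
      ((differentiableOn_id.pow N).mul hT) hb1
    have hpos' : 0 ≤ (∫ y in (0:ℝ)..(2 * Real.pi), (starRingEnd ℂ) (Complex.exp (b + y * I) ^ N * T (Complex.exp (b + y * I))) *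
          (Complex.exp (b + y * I) ^ N * S (Complex.exp (b + y * I)))).re := by
      have e : ∀ y : ℝ, deriv (fun z => z ^ N * T z) (Complex.exp (b + y * I)) * Complex.exp (b + y * I)
          = Complex.exp (b + y * I) ^ N * S (Complex.exp (b + y * I)) := fun y => hτd _ (hmem y)
      simp only [e] at hpos
      exact hpos
    rw [hint, Complex.add_re] at hA
    have hre : (∑ k ∈ s, (2 * Real.pi * ((k : ℝ) * ‖p k‖ ^ 2 * (Real.exp b ^ 2) ^ k) : ℂ)).re
        = 2 * Real.pi * ∑ k ∈ s, (k : ℝ) * ‖p k‖ ^ 2 * (Real.exp b ^ 2) ^ k := by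
      rw [Finset.mul_sum]
      rw [← Complex.ofReal_re (∑ k ∈ s, 2 * Real.pi * ((k : ℝ) * ‖p k‖ ^ 2 * (Real.exp b ^ 2) ^ k))]
      congr 1
      push_cast
      rfl
    rw [hre] at hA
    have hpi := Real.pi_pos
    by_contra hcon
    push Not at hcon
    have : 0 < 2 * Real.pi * ∑ k ∈ s, (k : ℝ) * ‖p k‖ ^ 2 * (Real.exp b ^ 2) ^ k :=
      mul_pos (by positivity) hcon
    linarith
  -- limit
  have hlim : Tendsto (fun b : ℝ => ∑ k ∈ s, (k : ℝ) * ‖p k‖ ^ 2 * (Real.exp b ^ 2) ^ k) (𝓝[<] 0)
      (𝓝 (∑ k ∈ s, (k : ℝ) * ‖p k‖ ^ 2)) := by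
    have hc : Continuous (fun b : ℝ => ∑ k ∈ s, (k : ℝ) * ‖p k‖ ^ 2 * (Real.exp b ^ 2) ^ k) := by
      apply continuous_finsetSum
      intro k _
      apply continuous_const.mul
      exact (Real.continuous_exp.pow 2).zpow₀ k (fun b => Or.inl (pow_ne_zero 2 (Real.exp_ne_zero b)))
    have := (hc.tendsto 0).mono_left (nhdsWithin_le_nhds (s := Iio 0))
    simpa using this
  exact le_of_tendsto hlim (eventually_nhdsWithin_of_forall fun b hb => key b hb)

end

end Pool.H40.Area
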