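import Mathlib

/-!
Green's formula in logarithmic polar coordinates and change of variables for injective
holomorphic maps.
-/

open Set MeasureTheory Complex Metric Filter Topology

namespace Pool.H40.Area

noncomputable section

/-- Iterated integral over a rectangle as a set integral. -/
lemma iter_eq_set (f : ℂ → ℂ) {a b c d : ℝ} (hab : a ≤ b) (hcd : c ≤ d)
    (hf : IntegrableOn f (Icc a b ×ℂ Icc c d)) :
    ∫ x in a..b, ∫ y in c..d, f (x + y * I) = ∫ z in (Ioc a b ×ℂ Ioc c d), f z := by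
  have hsub : (Ioc a b ×ℂ Ioc c d) ⊆ (Icc a b ×ℂ Icc c d) := by
    intro z hz
    rw [mem_reProdIm] at hz ⊢
    exact ⟨Ioc_subset_Icc_self hz.1, Ioc_subset_Icc_self hz.2⟩
  have hf2 : IntegrableOn f (Ioc a b ×ℂ Ioc c d) := hf.mono_set hsub
  have hpre : (measurableEquivRealProd.symm) ⁻¹' (Ioc a b ×ℂ Ioc c d) = Ioc a b ×ˢ Ioc c d := by
    ext p
    simp [mem_reProdIm]
  rw [← (volume_preserving_equiv_real_prod.symm _).setIntegral_preimage_emb
    measurableEquivRealProd.symm.measurableEmbedding, hpre]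
  have hf3 : IntegrableOn (fun p : ℝ × ℝ => f (measurableEquivRealProd.symm p))
      (Ioc a b ×ˢ Ioc c d) := by
    have := (volume_preserving_equiv_real_prod.symm _).integrableOn_comp_preimage
      measurableEquivRealProd.symm.measurableEmbedding (f := f) (s := (Ioc a b ×ℂ Ioc c d))
    rw [hpre] at this
    exact this.2 hf2
  rw [Measure.volume_eq_prod, setIntegral_prod _ hf3]
  rw [intervalIntegral.integral_of_le hab]
  refine setIntegral_congr_fun measurableSet_Ioc fun x _ => ?_
  rw [intervalIntegral.integral_of_le hcd]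
  refine setIntegral_congr_fun measurableSet_Ioc fun y _ => ?_
  simp only [measurableEquivRealProd_symm_apply]
  congr 1
  apply Complex.ext <;> simp

lemma deriv_exp_fun : deriv Complex.exp = Complex.exp := by
  ext z
  exact (Complex.hasDerivAt_exp z).deriv

lemma measurableSet_rect (a b c d : ℝ) : MeasurableSet (Ioc a b ×ℂ Ioc c d) := by
  have : (Ioc a b ×ℂ Ioc c d) = Complex.re ⁻¹' (Ioc a b) ∩ Complex.im ⁻¹' (Ioc c d) := rfl
  rw [this]
  exact (Complex.measurable_re measurableSet_Ioc).inter (Complex.measurable_im measurableSet_Ioc)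

lemma det_mul (a : ℂ) :
    (((ContinuousLinearMap.toSpanSingleton ℂ a : ℂ →L[ℂ] ℂ)).restrictScalars ℝ).det
      = ‖a‖ ^ 2 := by
  have h1 : ((ContinuousLinearMap.toSpanSingleton ℂ a : ℂ →L[ℂ] ℂ).restrictScalars ℝ).det
      = LinearMap.det (((ContinuousLinearMap.toSpanSingleton ℂ a : ℂ →L[ℂ] ℂ) : ℂ →ₗ[ℂ] ℂ).restrictScalars ℝ) := rfl
  rw [h1, LinearMap.det_restrictScalars, Algebra.norm_complex_apply, LinearMap.det_ring]
  simp [Complex.normSq_eq_norm_sq]

/-- Change of variables for an injective holomorphic map. -/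
lemma change_var {φ : ℂ → ℂ} {R : Set ℂ} (hR : MeasurableSet R)
    (hd : ∀ z ∈ R, DifferentiableAt ℂ φ z) (hinj : InjOn φ R) (g : ℂ → ℂ) :
    ∫ w in φ '' R, g w = ∫ z in R, ((‖deriv φ z‖ ^ 2 : ℝ) : ℂ) * g (φ z) := by
  have h := integral_image_eq_integral_abs_det_fderiv_smul (μ := volume) (f := φ) hR
    (f' := fun z => (ContinuousLinearMap.toSpanSingleton ℂ (deriv φ z) : ℂ →L[ℂ] ℂ).restrictScalars ℝ)
    (fun z hz => ((hd z hz).hasDerivAt.hasFDerivAt.restrictScalars ℝ).hasFDerivWithinAt) hinj g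
  rw [h]
  refine setIntegral_congr_fun hR fun z _ => ?_
  simp only [det_mul]
  rw [abs_of_nonneg (by positivity)]
  simp

/-- `2i` times the Wirtinger derivative with respect to the conjugate variable. -/
def dbar (V : ℂ → ℂ) (z : ℂ) : ℂ := I * fderiv ℝ V z 1 - fderiv ℝ V z I

lemma clm_dbar (L : ℂ →L[ℝ] ℂ) (a : ℂ) :
    I * L a - L (a * I) = (starRingEnd ℂ) a * (I * L 1 - L I) := by
  have h1 : L a = a.re * L 1 + a.im * L I := by
    conv_lhs => rw [← Complex.re_add_im a]
    rw [show ((a.re : ℂ) + a.im * I) = a.re • (1 : ℂ) + a.im • I by simp, map_add, map_smul, map_smul]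
    simp
  have h2 : L (a * I) = a.re * L I - a.im * L 1 := by
    have : a * I = a.re • I + (-a.im) • (1 : ℂ) := by
      conv_lhs => rw [← Complex.re_add_im a]
      rw [add_mul, mul_assoc, I_mul_I]
      simp
    rw [this, map_add, map_smul, map_smul]
    simp
    ring
  rw [h1, h2]
  have h3 : (starRingEnd ℂ) a = a.re - a.im * I := by
    apply Complex.ext <;> simp
  rw [h3]
  linear_combination ((a.im : ℂ) * L 1) * I_mul_I

/-- `dbar` of `V ∘ φ * φ'` for holomorphic `φ`. -/
lemma dbar_comp {V φ : ℂ → ℂ} {z : ℂ} (hV : DifferentiableAt ℝ V (φ z))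
    (hφ : AnalyticAt ℂ φ z) :
    dbar (fun ζ => V (φ ζ) * deriv φ ζ) z = ((‖deriv φ z‖ ^ 2 : ℝ) : ℂ) * dbar V (φ z) := by
  have h1 : HasDerivAt φ (deriv φ z) z := hφ.differentiableAt.hasDerivAt
  have h2 : HasDerivAt (deriv φ) (deriv (deriv φ) z) z := hφ.deriv.differentiableAt.hasDerivAt
  have h1' : HasFDerivAt φ ((ContinuousLinearMap.toSpanSingleton ℂ (deriv φ z) : ℂ →L[ℂ] ℂ).restrictScalars ℝ) z :=
    h1.hasFDerivAt.restrictScalars ℝ
  have h2' : HasFDerivAt (deriv φ) ((ContinuousLinearMap.toSpanSingleton ℂ (deriv (deriv φ) z) : ℂ →L[ℂ] ℂ).restrictScalars ℝ) z :=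
    h2.hasFDerivAt.restrictScalars ℝ
  have h3 := (hV.hasFDerivAt.comp z h1').mul h2'
  have h4 : fderiv ℝ (fun ζ => V (φ ζ) * deriv φ ζ) z = _ := h3.fderiv
  unfold dbar
  rw [h4]
  have h5 := clm_dbar (fderiv ℝ V (φ z)) (deriv φ z)
  have h6 : deriv φ z * (starRingEnd ℂ) (deriv φ z) = ((‖deriv φ z‖ ^ 2 : ℝ) : ℂ) := by
    rw [Complex.mul_conj, Complex.normSq_eq_norm_sq]
  rw [← h6]
  simp only [add_apply, smul_apply,
    ContinuousLinearMap.comp_apply, ContinuousLinearMap.coe_restrictScalars',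
    ContinuousLinearMap.toSpanSingleton_apply, smul_eq_mul, one_mul, Function.comp]
  rw [mul_comm I (deriv φ z)]
  linear_combination (deriv φ z) * h5

/-- Green's formula on an annulus in logarithmic polar coordinates. -/
lemma green_polar {V : ℂ → ℂ} {U : Set ℂ} (hU : IsOpen U) (hV : ContDiffOn ℝ 1 V U) {a b : ℝ}
    (hab : a ≤ b) (hsub : ∀ x ∈ Icc a b, ∀ y : ℝ, Complex.exp (x + y * I) ∈ U) :
    I * (∫ y in (0:ℝ)..(2 * Real.pi), V (Complex.exp (b + y * I)) * Complex.exp (b + y * I))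
      - I * (∫ y in (0:ℝ)..(2 * Real.pi), V (Complex.exp (a + y * I)) * Complex.exp (a + y * I))
      = ∫ z in (Ioc a b ×ℂ Ioc 0 (2 * Real.pi)),
        ((‖Complex.exp z‖ ^ 2 : ℝ) : ℂ) * dbar V (Complex.exp z) := by
  set G : ℂ → ℂ := fun ζ => V (Complex.exp ζ) * deriv Complex.exp ζ with hG
  have hpi : (0:ℝ) ≤ 2 * Real.pi := by positivity
  set W : Set ℂ := Complex.exp ⁻¹' U with hW
  have hWo : IsOpen W := hU.preimage Complex.continuous_exp
  have hRW : (Icc a b ×ℂ Icc 0 (2 * Real.pi)) ⊆ W := by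
    intro z hz
    rw [mem_reProdIm] at hz
    have := hsub z.re hz.1 z.im
    rwa [Complex.re_add_im] at this
  have hexpd : ContDiff ℝ 1 Complex.exp := Complex.contDiff_exp
  have hGd : ContDiffOn ℝ 1 G W := by
    have h1 : ContDiffOn ℝ 1 (fun ζ => V (Complex.exp ζ)) W :=
      hV.comp hexpd.contDiffOn (fun z hz => hz)
    have h2 : ContDiffOn ℝ 1 (deriv Complex.exp) W := by
      rw [deriv_exp_fun]
      exact hexpd.contDiffOn
    exact h1.mul h2
  have hdG : ∀ z ∈ W, I • fderiv ℝ G z 1 - fderiv ℝ G z I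
      = ((‖Complex.exp z‖ ^ 2 : ℝ) : ℂ) * dbar V (Complex.exp z) := by
    intro z hz
    have h1 : DifferentiableAt ℝ V (Complex.exp z) :=
      (hV.differentiableOn (by norm_num)).differentiableAt (hU.mem_nhds hz)
    have h2 : AnalyticAt ℂ Complex.exp z := by fun_prop
    have h3 := dbar_comp h1 h2
    unfold dbar at h3 ⊢
    rw [smul_eq_mul, hG, h3, deriv_exp_fun]
  have hcont : ContinuousOn (fun z => I • fderiv ℝ G z 1 - fderiv ℝ G z I) W := by
    have h1 : ContinuousOn (fderiv ℝ G) W := hGd.continuousOn_fderiv_of_isOpen hWo le_rfl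
    have h2 : ContinuousOn (fun z => fderiv ℝ G z 1) W := h1.clm_apply continuousOn_const
    have h3 : ContinuousOn (fun z => fderiv ℝ G z I) W := h1.clm_apply continuousOn_const
    have h4 : ContinuousOn (fun z => I • fderiv ℝ G z 1) W :=
      ContinuousOn.smul (continuousOn_const (c := I)) h2
    exact ContinuousOn.sub h4 h3
  have hcomp : IsCompact (Icc a b ×ℂ Icc (0:ℝ) (2 * Real.pi)) := isCompact_Icc.reProdIm isCompact_Icc
  have hint : IntegrableOn (fun z => I • fderiv ℝ G z 1 - fderiv ℝ G z I)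
      (Icc a b ×ℂ Icc 0 (2 * Real.pi)) :=
    (hcont.mono hRW).integrableOn_compact hcomp
  have key := integral_boundary_rect_of_differentiableOn_real G (a : ℂ) (b + (2 * Real.pi : ℝ) * I)
    (by
      simp only [ofReal_re, add_re, mul_re, I_re, mul_zero, ofReal_im, I_im, mul_one, sub_self,
        add_zero, add_im, mul_im, zero_add, uIcc_of_le hab, uIcc_of_le hpi]
      exact (hGd.differentiableOn (by norm_num)).mono hRW)
    (by
      simp only [ofReal_re, add_re, mul_re, I_re, mul_zero, ofReal_im, I_im, mul_one, sub_self,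
        add_zero, add_im, mul_im, zero_add, uIcc_of_le hab, uIcc_of_le hpi]
      exact hint)
  simp only [ofReal_re, add_re, mul_re, I_re, mul_zero, ofReal_im, I_im, mul_one, sub_self,
        add_zero, add_im, mul_im, zero_add, ofReal_zero, zero_mul] at key
  have hper : ∀ x : ℝ, G (x + (2 * Real.pi : ℝ) * I) = G (x : ℂ) := by
    intro x
    have : Complex.exp (x + (2 * Real.pi : ℝ) * I) = Complex.exp x := by
      rw [Complex.exp_add]
      have : ((2 * Real.pi : ℝ) : ℂ) * I = 2 * Real.pi * I := by push_cast; ring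
      rw [this, Complex.exp_two_pi_mul_I, mul_one]
    simp only [hG, deriv_exp_fun, this]
  simp only [hper, sub_self, zero_add] at key
  rw [iter_eq_set (fun z => I • fderiv ℝ G z 1 - fderiv ℝ G z I) hab hpi hint] at key
  simp only [smul_eq_mul] at key
  have hG' : ∀ ζ, G ζ = V (Complex.exp ζ) * Complex.exp ζ := by
    intro ζ; simp only [hG, deriv_exp_fun]
  simp only [hG'] at key
  rw [key]
  refine setIntegral_congr_fun (measurableSet_rect _ _ _ _) fun z hz => ?_
  have hz' : z ∈ W := by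
    apply hRW
    rw [mem_reProdIm] at hz ⊢
    exact ⟨Ioc_subset_Icc_self hz.1, Ioc_subset_Icc_self hz.2⟩
  have := hdG z hz'
  simp only [smul_eq_mul] at this
  rw [← this]

end

end Pool.H40.Area
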