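import Mathlib

/-! Taylor expansion with holomorphic remainder on the unit ball. -/

open Set Metric Filter Topology

namespace Pool.H40.Area

/-- Taylor coefficient -/
noncomputable def tc (g : ℂ → ℂ) (n : ℕ) : ℂ := iteratedDeriv n g 0 / n.factorial

lemma taylor_rem {g : ℂ → ℂ} (hg : DifferentiableOn ℂ g (ball 0 1)) (N : ℕ) :
    ∃ G : ℂ → ℂ, DifferentiableOn ℂ G (ball 0 1) ∧
      ∀ w ∈ ball (0:ℂ) 1, g w = (∑ n ∈ Finset.range N, tc g n * w ^ n) + w ^ N * G w := by
  have han : AnalyticAt ℂ g 0 := (hg.analyticOnNhd isOpen_ball) 0 (mem_ball_self one_pos)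
  set p : FormalMultilinearSeries ℂ ℂ ℂ :=
    FormalMultilinearSeries.ofScalars ℂ (fun n => iteratedDeriv n g 0 / n.factorial) with hp
  have hps : HasFPowerSeriesAt g p 0 := han.hasFPowerSeriesAt
  have hcoeff : ∀ n, p.coeff n = tc g n := by
    intro n
    rw [hp, FormalMultilinearSeries.coeff_ofScalars]
    rfl
  suffices h : ∃ G : ℂ → ℂ, DifferentiableOn ℂ G (ball 0 1) ∧
      HasFPowerSeriesAt G (FormalMultilinearSeries.fslope^[N] p) 0 ∧
      ∀ w ∈ ball (0:ℂ) 1, g w = (∑ n ∈ Finset.range N, tc g n * w ^ n) + w ^ N * G w by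
    obtain ⟨G, h1, _, h3⟩ := h
    exact ⟨G, h1, h3⟩
  induction N with
  | zero => exact ⟨g, hg, by simpa using hps, fun w _ => by simp⟩
  | succ N ih =>
    obtain ⟨G, h1, h2, h3⟩ := ih
    refine ⟨dslope G 0, (Complex.differentiableOn_dslope (ball_mem_nhds 0 one_pos)).2 h1, ?_, ?_⟩
    · rw [Function.iterate_succ_apply']
      exact h2.has_fpower_series_dslope_fslope
    · intro w hw
      have hG0 : G 0 = tc g N := by
        have := h2.coeff_zero 1
        rw [← this, ← hcoeff]
        change (FormalMultilinearSeries.fslope^[N] p).coeff 0 = _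
        rw [FormalMultilinearSeries.coeff_iterate_fslope, zero_add]
      have hs := sub_smul_dslope G 0 w
      rw [sub_zero, smul_eq_mul, hG0] at hs
      rw [h3 w hw, Finset.sum_range_succ, pow_succ]
      linear_combination (-(w ^ N)) * hs

end Pool.H40.Area
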