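import Pool.Agent.H40.Area.Coeff
import Pool.Agent.H40.Area.AlgC
import Pool.Agent.H40.Area.Tay

/-! The case n = 3 of the Duren-Leung inequality. -/

open Set Metric Filter Topology Complex

namespace Pool.H40.Area

/-- logarithmic coefficient: `g = log (f(z)/z) = ∑ 2 γ_n z^n` -/
noncomputable def gam (g : ℂ → ℂ) (m : ℕ) : ℂ := iteratedDeriv m g 0 / (2 * (m.factorial : ℂ))

lemma exp_coeffs {g : ℂ → ℂ} (hg : DifferentiableOn ℂ g (ball 0 1)) (g0 : g 0 = 0) :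
    tc (fun w => Complex.exp (-g w / 2)) 0 = 1 ∧
    tc (fun w => Complex.exp (-g w / 2)) 1 = -gam g 1 ∧
    tc (fun w => Complex.exp (-g w / 2)) 2 = -gam g 2 + gam g 1 ^ 2 / 2 ∧
    tc (fun w => Complex.exp (-g w / 2)) 3 = -gam g 3 + gam g 1 * gam g 2 - gam g 1 ^ 3 / 6 := by
  have han : AnalyticOnNhd ℂ g (ball 0 1) := hg.analyticOnNhd isOpen_ball
  have han1 : AnalyticOnNhd ℂ (deriv g) (ball 0 1) := han.deriv
  have han2 : AnalyticOnNhd ℂ (deriv (deriv g)) (ball 0 1) := han1.deriv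
  set E : ℂ → ℂ := fun w => Complex.exp (-g w / 2) with hE
  have hd : ∀ w ∈ ball (0:ℂ) 1, HasDerivAt g (deriv g w) w := fun w hw =>
    (han w hw).differentiableAt.hasDerivAt
  have hd1 : ∀ w ∈ ball (0:ℂ) 1, HasDerivAt (deriv g) (deriv (deriv g) w) w := fun w hw =>
    (han1 w hw).differentiableAt.hasDerivAt
  have hd2 : ∀ w ∈ ball (0:ℂ) 1, HasDerivAt (deriv (deriv g)) (deriv (deriv (deriv g)) w) w := fun w hw =>
    (han2 w hw).differentiableAt.hasDerivAt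
  have hE1 : ∀ w ∈ ball (0:ℂ) 1, HasDerivAt E (-deriv g w / 2 * E w) w := by
    intro w hw
    have h1 := ((hd w hw).neg.div_const 2).cexp
    exact h1.congr_deriv (by simp only [hE, Pi.neg_apply]; ring)
  set F1 : ℂ → ℂ := fun w => -deriv g w / 2 * E w with hF1
  have hE2 : ∀ w ∈ ball (0:ℂ) 1, HasDerivAt F1
      ((-deriv (deriv g) w / 2 + (deriv g w)^2/4) * E w) w := by
    intro w hw
    have h1 := ((hd1 w hw).neg.div_const 2).mul (hE1 w hw)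
    exact h1.congr_deriv (by simp only [Pi.neg_apply]; ring)
  set F2 : ℂ → ℂ := fun w => (-deriv (deriv g) w / 2 + (deriv g w)^2/4) * E w with hF2
  have hE3 : ∀ w ∈ ball (0:ℂ) 1, HasDerivAt F2
      ((-deriv (deriv (deriv g)) w / 2 + 3/4 * deriv g w * deriv (deriv g) w - (deriv g w)^3/8) * E w) w := by
    intro w hw
    have h0 : HasDerivAt (fun w => -deriv (deriv g) w / 2 + (deriv g w)^2/4)
        (-deriv (deriv (deriv g)) w / 2 + (2 * deriv g w * deriv (deriv g) w)/4) w := by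
      have a1 := (hd2 w hw).neg.div_const 2
      have a2 := ((hd1 w hw).pow 2).div_const 4
      have a3 := a1.add a2
      refine (a3.congr_deriv ?_)
      simp
    have h1 := h0.mul (hE1 w hw)
    exact h1.congr_deriv (by ring)
  have hmem0 : (0:ℂ) ∈ ball (0:ℂ) 1 := mem_ball_self one_pos
  have hnb : ball (0:ℂ) 1 ∈ 𝓝 (0:ℂ) := ball_mem_nhds 0 one_pos
  have e1 : deriv E =ᶠ[𝓝 0] F1 := by
    filter_upwards [hnb] with w hw using (hE1 w hw).deriv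
  have e1' : ∀ w ∈ ball (0:ℂ) 1, deriv E =ᶠ[𝓝 w] F1 := by
    intro w hw
    filter_upwards [isOpen_ball.mem_nhds hw] with v hv using (hE1 v hv).deriv
  have e2 : ∀ w ∈ ball (0:ℂ) 1, deriv (deriv E) w = F2 w := by
    intro w hw
    rw [(e1' w hw).deriv_eq]
    exact (hE2 w hw).deriv
  have e2' : deriv (deriv E) =ᶠ[𝓝 0] F2 := by
    filter_upwards [hnb] with w hw using e2 w hw
  have e3 : deriv (deriv (deriv E)) 0 = (-deriv (deriv (deriv g)) 0 / 2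
      + 3/4 * deriv g 0 * deriv (deriv g) 0 - (deriv g 0)^3/8) * E 0 := by
    rw [e2'.deriv_eq]
    exact (hE3 0 hmem0).deriv
  have i1 : ∀ f : ℂ → ℂ, iteratedDeriv 1 f = deriv f := fun f => iteratedDeriv_one
  have i2 : ∀ f : ℂ → ℂ, iteratedDeriv 2 f = deriv (deriv f) := fun f => by
    rw [iteratedDeriv_succ, iteratedDeriv_one]
  have i3 : ∀ f : ℂ → ℂ, iteratedDeriv 3 f = deriv (deriv (deriv f)) := fun f => by
    rw [iteratedDeriv_succ, i2]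
  have hE0 : E 0 = 1 := by simp [hE, g0]
  unfold tc gam
  rw [i1, i1, i2, i2, i3, i3, iteratedDeriv_zero, e3, e2 0 hmem0, (hE1 0 hmem0).deriv, hE0, hF2]
  simp only [hE0, Nat.factorial]
  push_cast
  refine ⟨by norm_num, by ring, by ring, by ring⟩

/-- `Q(w) = q1 / w + q3 / w^3`. -/
noncomputable def Qf (q1 q3 : ℂ) (w : ℂ) : ℂ := q1 * w⁻¹ + q3 * (w⁻¹) ^ 3

lemma Qf_hasDeriv (q1 q3 : ℂ) {w : ℂ} (hw : w ≠ 0) :
    HasDerivAt (Qf q1 q3) (-(q1 * (w⁻¹) ^ 2 + 3 * q3 * (w⁻¹) ^ 4)) w := by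
  have h1 := hasDerivAt_inv hw
  have h2 := (h1.const_mul q1).add ((h1.pow 3).const_mul q3)
  refine h2.congr_deriv ?_
  rw [← inv_pow]
  norm_num
  ring

lemma Qf_diff (q1 q3 : ℂ) : DifferentiableOn ℂ (Qf q1 q3) {0}ᶜ := fun _ hw =>
  (Qf_hasDeriv q1 q3 hw).differentiableAt.differentiableWithinAt

lemma Qf_inf (q1 q3 : ℂ) : ∀ ε > 0, ∃ R : ℝ, ∀ w : ℂ, R ≤ ‖w‖ →
    ‖Qf q1 q3 w‖ * (‖deriv (Qf q1 q3) w‖ * ‖w‖) ≤ ε := by
  intro ε hε
  set C := (‖q1‖ + ‖q3‖) * (‖q1‖ + 3 * ‖q3‖) with hC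
  have hC0 : 0 ≤ C := by positivity
  refine ⟨max 1 (C / ε), fun w hw => ?_⟩
  have hw1 : 1 ≤ ‖w‖ := (le_max_left _ _).trans hw
  have hw2 : C / ε ≤ ‖w‖ := (le_max_right _ _).trans hw
  have hw0 : w ≠ 0 := by
    rintro rfl
    simp at hw1
    linarith
  have hwp : 0 < ‖w‖ := by linarith
  set v := ‖w‖⁻¹ with hv
  have hv0 : 0 < v := by positivity
  have hv1 : v ≤ 1 := by rw [hv]; exact inv_le_one_of_one_le₀ hw1
  have hvw : v * ‖w‖ = 1 := by rw [hv]; field_simp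
  have h1 : ‖Qf q1 q3 w‖ ≤ (‖q1‖ + ‖q3‖) * v := by
    unfold Qf
    refine (norm_add_le _ _).trans ?_
    rw [norm_mul, norm_mul, norm_pow, norm_inv, ← hv]
    have : v ^ 3 ≤ v := by nlinarith [mul_nonneg hv0.le hv0.le, mul_pos hv0 hv0]
    nlinarith [norm_nonneg q1, norm_nonneg q3, mul_le_mul_of_nonneg_left this (norm_nonneg q3)]
  have h2 : ‖deriv (Qf q1 q3) w‖ ≤ (‖q1‖ + 3 * ‖q3‖) * v ^ 2 := by
    rw [(Qf_hasDeriv q1 q3 hw0).deriv, norm_neg]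
    refine (norm_add_le _ _).trans ?_
    rw [norm_mul, norm_mul, norm_mul, norm_pow, norm_pow, norm_inv, ← hv]
    have e3 : ‖(3:ℂ)‖ = 3 := by simp
    rw [e3]
    have hvv : v ^ 2 ≤ 1 := pow_le_one₀ hv0.le hv1
    have : v ^ 4 ≤ v ^ 2 := by nlinarith [sq_nonneg v]
    nlinarith [norm_nonneg q1, norm_nonneg q3, mul_le_mul_of_nonneg_left this (norm_nonneg q3)]
  calc ‖Qf q1 q3 w‖ * (‖deriv (Qf q1 q3) w‖ * ‖w‖)
      ≤ ((‖q1‖ + ‖q3‖) * v) * (((‖q1‖ + 3 * ‖q3‖) * v ^ 2) * ‖w‖) := by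
        apply mul_le_mul h1 _ (by positivity) (by positivity)
        exact mul_le_mul_of_nonneg_right h2 hwp.le
    _ = C * v ^ 2 * (v * ‖w‖) := by rw [hC]; ring
    _ = C * v * v := by rw [hvw]; ring
    _ ≤ C * v * 1 := mul_le_mul_of_nonneg_left hv1 (by positivity)
    _ = C * v := by ring
    _ ≤ ε := by
        rw [hv, ← div_eq_mul_inv, div_le_iff₀ hwp]
        rw [div_le_iff₀ hε] at hw2
        linarith

/-- remainder of the cube -/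
noncomputable def C4 (e1 e2 e3 w r : ℂ) : ℂ :=
  (3 * e1 * e3 * 2 + 3 * e2 ^ 2 + 3 * e1 ^ 2 * e2) +
    (6 * e2 * e3 + 3 * e1 ^ 2 * e3 + 3 * e1 * e2 ^ 2) * w +
    (3 * e3 ^ 2 + 6 * e1 * e2 * e3 + e2 ^ 3) * w ^ 2 +
    (3 * e1 * e3 ^ 2 + 3 * e2 ^ 2 * e3) * w ^ 3 + 3 * e2 * e3 ^ 2 * w ^ 4 + e3 ^ 3 * w ^ 5 +
    3 * (1 + e1 * w + e2 * w ^ 2 + e3 * w ^ 3) ^ 2 * r +
    3 * (1 + e1 * w + e2 * w ^ 2 + e3 * w ^ 3) * w ^ 4 * r ^ 2 + w ^ 8 * r ^ 3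

lemma cube_expand (e1 e2 e3 w r : ℂ) :
    (1 + e1 * w + e2 * w ^ 2 + e3 * w ^ 3 + w ^ 4 * r) ^ 3 =
      1 + 3 * e1 * w + (3 * e2 + 3 * e1 ^ 2) * w ^ 2 + (3 * e3 + 6 * e1 * e2 + e1 ^ 3) * w ^ 3
        + w ^ 4 * C4 e1 e2 e3 w r := by
  unfold C4
  ring

/-- four coefficients at `-3, -1, 1, 3` -/
noncomputable def pf (a b c d : ℂ) (k : ℤ) : ℂ :=
  if k = -3 then a else if k = -1 then b else if k = 1 then c else d

lemma pf_sum (a b c d z : ℂ) : ∑ k ∈ ({-3, -1, 1, 3} : Finset ℤ), pf a b c d k * z ^ k =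
    a * (z⁻¹) ^ 3 + b * z⁻¹ + c * z + d * z ^ 3 := by
  rw [Finset.sum_insert (by decide), Finset.sum_insert (by decide), Finset.sum_insert (by decide),
        Finset.sum_singleton]
  unfold pf
  norm_num
  ring

lemma pf_sum2 (a b c d : ℂ) : ∑ k ∈ ({-3, -1, 1, 3} : Finset ℤ), (k : ℝ) * ‖pf a b c d k‖ ^ 2 =
    -3 * ‖a‖^2 - ‖b‖^2 + ‖c‖^2 + 3 * ‖d‖^2 := by
  rw [Finset.sum_insert (by decide), Finset.sum_insert (by decide), Finset.sum_insert (by decide),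
        Finset.sum_singleton]
  unfold pf
  norm_num
  ring

lemma rel_block (z : ℂ) (hz : z ≠ 0) (α β q1 e1 e2 e3 r c : ℂ) (hq : q1 = α - 3 * e1 * β) :
    q1 * (z⁻¹ * (1 + e1 * z ^ 2 + e2 * (z ^ 2) ^ 2 + e3 * (z ^ 2) ^ 3 + (z ^ 2) ^ 4 * r)) +
      β * ((z⁻¹) ^ 3 * (1 + 3 * e1 * z ^ 2 + (3 * e2 + 3 * e1 ^ 2) * (z ^ 2) ^ 2 +
        (3 * e3 + 6 * e1 * e2 + e1 ^ 3) * (z ^ 2) ^ 3 + (z ^ 2) ^ 4 * c)) =
    (β * (z⁻¹) ^ 3 + α * z⁻¹ + (e1 * α + 3 * e2 * β) * z +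
      (e2 * α + 3 * (e3 + e1 * e2 + e1 ^ 3 / 3) * β) * z ^ 3) +
      z ^ 4 * (z * (q1 * e3 + q1 * z ^ 2 * r + β * c)) := by
  subst hq
  field_simp
  ring

section main

variable {f g : ℂ → ℂ}

/-- The odd transform. -/
noncomputable def odd (g : ℂ → ℂ) (z : ℂ) : ℂ := z * Complex.exp (g (z ^ 2) / 2)

lemma sq_mem_ball {z : ℂ} (hz : z ∈ ball (0:ℂ) 1) : z ^ 2 ∈ ball (0:ℂ) 1 := by
  rw [mem_ball_zero_iff] at hz ⊢
  rw [norm_pow]
  exact pow_lt_one₀ (norm_nonneg _) hz (by norm_num)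

lemma odd_diff (hg : DifferentiableOn ℂ g (ball 0 1)) : DifferentiableOn ℂ (odd g) (ball 0 1) := by
  have h1 : DifferentiableOn ℂ (fun z : ℂ => g (z ^ 2)) (ball 0 1) :=
    hg.comp (differentiableOn_id.pow 2) (fun z hz => sq_mem_ball hz)
  exact differentiableOn_id.mul ((h1.div_const 2).cexp)

lemma odd_zero : odd g 0 = 0 := by simp [odd]

lemma odd_deriv (hg : DifferentiableOn ℂ g (ball 0 1)) : deriv (odd g) 0 ≠ 0 := by
  have h1 : DifferentiableAt ℂ (fun z : ℂ => Complex.exp (g (z ^ 2) / 2)) 0 := by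
    have : DifferentiableOn ℂ (fun z : ℂ => g (z ^ 2)) (ball 0 1) :=
      hg.comp (differentiableOn_id.pow 2) (fun z hz => sq_mem_ball hz)
    exact ((this.div_const 2).cexp).differentiableAt (ball_mem_nhds 0 one_pos)
  have h2 : HasDerivAt (odd g) (1 * Complex.exp (g ((0:ℂ) ^ 2) / 2) + 0 * deriv (fun z : ℂ => Complex.exp (g (z ^ 2) / 2)) 0) 0 :=
    (hasDerivAt_id (0:ℂ)).mul h1.hasDerivAt
  rw [h2.deriv]
  simp

lemma odd_sq (hfg : ∀ z ∈ ball (0 : ℂ) 1, z ≠ 0 → f z = z * Complex.exp (g z)) (f0 : f 0 = 0)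
    {z : ℂ} (hz : z ∈ ball (0:ℂ) 1) : odd g z ^ 2 = f (z ^ 2) := by
  by_cases h0 : z = 0
  · subst h0; simp [odd, f0]
  · rw [hfg _ (sq_mem_ball hz) (pow_ne_zero 2 h0), odd, mul_pow, ← Complex.exp_nat_mul]
    congr 2
    push_cast
    ring

lemma odd_inj (hf : InjOn f (ball 0 1)) (f0 : f 0 = 0)
    (hfg : ∀ z ∈ ball (0 : ℂ) 1, z ≠ 0 → f z = z * Complex.exp (g z)) :
    InjOn (odd g) (ball 0 1) := by
  intro z hz w hw h
  have h1 : f (z ^ 2) = f (w ^ 2) := by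
    rw [← odd_sq hfg f0 hz, ← odd_sq hfg f0 hw, h]
  have h2 : z ^ 2 = w ^ 2 := hf (sq_mem_ball hz) (sq_mem_ball hw) h1
  rcases sq_eq_sq_iff_eq_or_eq_neg.1 h2 with h3 | h3
  · exact h3
  · subst h3
    have h4 : odd g (-w) = -odd g w := by simp [odd]
    rw [h4] at h
    have h5 : odd g w = 0 := self_eq_neg.1 h.symm
    have h6 : w = 0 := by
      unfold odd at h5
      rcases mul_eq_zero.1 h5 with h7 | h7
      · exact h7
      · exact absurd h7 (Complex.exp_ne_zero _)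
    simp [h6]

/-- expansion data for `exp(-g/2)` -/
lemma E_data (hg : DifferentiableOn ℂ g (ball 0 1)) (g0 : g 0 = 0) :
    ∃ R : ℂ → ℂ, DifferentiableOn ℂ R (ball 0 1) ∧ ∀ w ∈ ball (0:ℂ) 1,
      Complex.exp (-g w / 2) = 1 + (-gam g 1) * w + (-gam g 2 + gam g 1 ^ 2 / 2) * w ^ 2
        + (-gam g 3 + gam g 1 * gam g 2 - gam g 1 ^ 3 / 6) * w ^ 3 + w ^ 4 * R w := by
  have hE : DifferentiableOn ℂ (fun w => Complex.exp (-g w / 2)) (ball 0 1) :=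
    (hg.neg.div_const 2).cexp
  obtain ⟨R, hR, hexp⟩ := taylor_rem hE 4
  obtain ⟨c0, c1, c2, c3⟩ := exp_coeffs hg g0
  refine ⟨R, hR, fun w hw => ?_⟩
  have := hexp w hw
  rw [this, Finset.sum_range_succ, Finset.sum_range_succ, Finset.sum_range_succ,
    Finset.sum_range_one, c0, c1, c2, c3]
  ring

lemma inv_odd {z : ℂ} (hz : z ≠ 0) : (odd g z)⁻¹ = z⁻¹ * Complex.exp (-g (z ^ 2) / 2) := by
  unfold odd
  rw [mul_inv, ← Complex.exp_neg]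
  congr 2
  ring

/-- first-row inequality -/
lemma ineq_row (hf : InjOn f (ball 0 1)) (f0 : f 0 = 0) (hg : DifferentiableOn ℂ g (ball 0 1))
    (g0 : g 0 = 0) (hfg : ∀ z ∈ ball (0 : ℂ) 1, z ≠ 0 → f z = z * Complex.exp (g z)) :
    ‖-gam g 1‖^2 + 3*‖-gam g 2 + gam g 1 ^ 2 / 2‖^2
      + 5*‖-gam g 3 + gam g 1 * gam g 2 - gam g 1 ^ 3 / 6‖^2 ≤ 1 := by
  obtain ⟨R, hR, hexp⟩ := E_data hg g0
  set e1 := -gam g 1 with he1
  set e2 := -gam g 2 + gam g 1 ^ 2 / 2 with he2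
  set e3 := -gam g 3 + gam g 1 * gam g 2 - gam g 1 ^ 3 / 6 with he3
  let p : ℤ → ℂ := fun k => if k = -1 then 1 else if k = 1 then e1 else if k = 3 then e2 else e3
  have h := coeff_area (odd_diff hg) (odd_inj hf f0 hfg) odd_zero (odd_deriv hg) (Qf_diff 1 0)
    (Qf_inf 1 0) {-1, 1, 3, 5} p 6 (by
      intro k hk
      simp at hk
      omega) (T := fun z => z * R (z ^ 2)) (by
      exact differentiableOn_id.mul (hR.comp (differentiableOn_id.pow 2) (fun z hz => sq_mem_ball hz)))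
    (by
      intro z hz hz0
      unfold Qf
      rw [inv_odd hz0, hexp _ (sq_mem_ball hz)]
      simp only [p]
      rw [Finset.sum_insert (by decide), Finset.sum_insert (by decide), Finset.sum_insert (by decide),
        Finset.sum_singleton]
      norm_num
      field_simp
      ring)
  rw [Finset.sum_insert (by decide), Finset.sum_insert (by decide), Finset.sum_insert (by decide),
        Finset.sum_singleton] at h
  simp only [p] at h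
  norm_num at h
  rw [norm_neg] at *
  linarith

/-- block inequality -/
lemma ineq_block (hf : InjOn f (ball 0 1)) (f0 : f 0 = 0) (hg : DifferentiableOn ℂ g (ball 0 1))
    (g0 : g 0 = 0) (hfg : ∀ z ∈ ball (0 : ℂ) 1, z ≠ 0 → f z = z * Complex.exp (g z)) (α β : ℂ) :
    ‖gam g 1 * α + 3 * (gam g 2 - gam g 1 ^ 2 / 2) * β‖^2
      + 3 * ‖(gam g 2 - gam g 1 ^ 2 / 2) * α
        + 3 * (gam g 3 - 2 * gam g 1 * gam g 2 + gam g 1 ^ 3) * β‖^2 ≤ ‖α‖^2 + 3*‖β‖^2 := by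
  obtain ⟨R, hR, hexp⟩ := E_data hg g0
  obtain ⟨e1, he1⟩ : ∃ e1, e1 = -gam g 1 := ⟨_, rfl⟩
  obtain ⟨e2, he2⟩ : ∃ e2, e2 = -gam g 2 + gam g 1 ^ 2 / 2 := ⟨_, rfl⟩
  obtain ⟨e3, he3⟩ : ∃ e3, e3 = -gam g 3 + gam g 1 * gam g 2 - gam g 1 ^ 3 / 6 := ⟨_, rfl⟩
  rw [← he1, ← he2, ← he3] at hexp
  obtain ⟨q1, hq1⟩ : ∃ q1, q1 = α - 3 * e1 * β := ⟨_, rfl⟩
  obtain ⟨R2, hR2⟩ : ∃ R2 : ℂ → ℂ, ∀ z, R2 z = R (z ^ 2) := ⟨fun z => R (z ^ 2), fun _ => rfl⟩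
  have r1 : DifferentiableOn ℂ R2 (ball 0 1) := by
    have : R2 = fun z => R (z ^ 2) := funext hR2
    rw [this]
    exact hR.comp (differentiableOn_id.pow 2) (fun z hz => sq_mem_ball hz)
  obtain ⟨C2, hC2⟩ : ∃ C2 : ℂ → ℂ, ∀ z, C2 z = C4 e1 e2 e3 (z ^ 2) (R2 z) := ⟨_, fun _ => rfl⟩
  have r2 : DifferentiableOn ℂ C2 (ball 0 1) := by
    have : C2 = fun z => C4 e1 e2 e3 (z ^ 2) (R2 z) := funext hC2
    rw [this]
    unfold C4
    fun_prop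
  have h := coeff_area (odd_diff hg) (odd_inj hf f0 hfg) odd_zero (odd_deriv hg) (Qf_diff q1 β)
    (Qf_inf q1 β) {-3, -1, 1, 3}
    (pf β α (e1 * α + 3 * e2 * β) (e2 * α + 3 * (e3 + e1 * e2 + e1 ^ 3 / 3) * β)) 4 (by
      intro k hk
      simp at hk
      omega) (T := fun z => z * (q1 * e3 + q1 * z ^ 2 * R2 z + β * C2 z)) (by
      fun_prop)
    (by
      intro z hz hz0
      rw [pf_sum]
      unfold Qf
      rw [inv_odd hz0, mul_pow, hexp _ (sq_mem_ball hz), ← hR2, cube_expand, ← hC2]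
      exact rel_block z hz0 α β q1 e1 e2 e3 (R2 z) (C2 z) hq1)
  rw [pf_sum2] at h
  have k1 : gam g 1 * α + 3 * (gam g 2 - gam g 1 ^ 2 / 2) * β = -(e1 * α + 3 * e2 * β) := by
    rw [he1, he2]; ring
  have k2 : (gam g 2 - gam g 1 ^ 2 / 2) * α
        + 3 * (gam g 3 - 2 * gam g 1 * gam g 2 + gam g 1 ^ 3) * β =
        -(e2 * α + 3 * (e3 + e1 * e2 + e1 ^ 3 / 3) * β) := by
    rw [he1, he2, he3]; ring
  rw [k1, k2, norm_neg, norm_neg]
  linarith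

/-- **n = 3.** -/
theorem duren_leung_three (hf : InjOn f (ball 0 1)) (f0 : f 0 = 0)
    (hg : DifferentiableOn ℂ g (ball 0 1))
    (g0 : g 0 = 0) (hfg : ∀ z ∈ ball (0 : ℂ) 1, z ≠ 0 → f z = z * Complex.exp (g z)) :
    ‖gam g 1‖^2 + ‖gam g 2‖^2 + ‖gam g 3‖^2 ≤ 49/36 - (1 - ‖gam g 1‖^2)/25 := by
  have h := final_complex (gam g 1) (gam g 2 - gam g 1 ^ 2 / 2)
    (gam g 3 - 2 * gam g 1 * gam g 2 + gam g 1 ^ 3) (by
      have h1 := ineq_row hf f0 hg g0 hfg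
      rw [norm_neg] at h1
      have e2 : gam g 2 - gam g 1 ^ 2 / 2 = -(-gam g 2 + gam g 1 ^ 2 / 2) := by ring
      have e3 : gam g 3 - 2 * gam g 1 * gam g 2 + gam g 1 ^ 3 + gam g 1 * (gam g 2 - gam g 1 ^ 2 / 2)
        - gam g 1 ^ 3 / 3 = -(-gam g 3 + gam g 1 * gam g 2 - gam g 1 ^ 3 / 6) := by ring
      rw [e3, norm_neg, e2, norm_neg]
      exact h1) (fun α β => ineq_block hf f0 hg g0 hfg α β)
  have k1 : gam g 1 ^ 2 / 2 + (gam g 2 - gam g 1 ^ 2 / 2) = gam g 2 := by ring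
  have k2 : 2 * gam g 1 * (gam g 2 - gam g 1 ^ 2 / 2) +
    (gam g 3 - 2 * gam g 1 * gam g 2 + gam g 1 ^ 3) = gam g 3 := by ring
  rw [k1, k2] at h
  exact h

end main

end Pool.H40.Area
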